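import Pool.Agent.Lib.MP_05cdf2_gt.T.Main

/-! MP_05cdf2_gt, stream T, job MainB: the disconnected case of (II) from smaller intervals.

`ok A B`, `PP A hv B`, `m ≤ 0`, `Cp A B z1`, `z1 ≠ A`, `z1 ≠ B`. Let `z2` be the complement (`Cp_compl`). The map `E ↦ (E ⊓ z1, E ⊔ z1)` is an isomorphism of `[A,B]` onto `[A,z1] × [z1,B]` with inverse
`(x,y) ↦ x ⊔ (y ⊓ z2)`. `PLB` for `P = {x | x ≤ z1 ∧ PP A hv x}`, `Q = {y | y ≤ B ∧ PP z1 (hvs A hv) y}`. -/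

set_option autoImplicit false

namespace TorT
open TorA
namespace Slb
variable {X C : Type} [Lattice X] [DecidableEq C] (S : Slb X C)

/-- the second coordinate -/
theorem MP_snd {A B z1 z2 y : X} {hv : Set C} (hok : S.ok A B) (hz : S.Cp A B z1) (hc2 : S.Cp A B z2)
    (hinf : z1 ⊓ z2 = A) (hsup : z1 ⊔ z2 = B) (hP1 : S.PP A hv z1) (hy : z1 ≤ y) (hyB : y ≤ B) :
    z1 ⊔ (y ⊓ z2) = y ∧ A ≤ y ⊓ z2 ∧ S.D z1 y = S.D A (y ⊓ z2) ∧
      (S.PP z1 (S.hvs A hv) y ↔ S.PP A hv (y ⊓ z2)) := by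
  have hAy : A ≤ y := hz.1.trans hy
  have hA2 : A ≤ y ⊓ z2 := le_inf hAy hc2.1
  have e1 := PR_sup S hok hz hc2 hsup hAy hyB
  rw [inf_eq_right.2 hy] at e1
  have e2 := PR_D S hok hz hc2 hinf hz.1 le_rfl hA2 inf_le_right
  rw [e1] at e2
  have e3 := D_add (S := S) A z1 y
  have e4 := PR_PP S (hv := hv) hok hz hc2 hinf hz.1 le_rfl hA2 inf_le_right
  rw [e1] at e4
  have e5 := PP_iff S (S.ok_sub A B A y hok le_rfl hAy hyB) hP1 hy
  refine ⟨e1, hA2, by linarith, ?_⟩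
  rw [← e5, e4]
  exact ⟨fun h => h.2, fun h => ⟨hP1, h⟩⟩

theorem MainP (A B z1 : X) (h : S.Sm A B) (m : ℤ) (hv : Set C) (hok : S.ok A B)
    (hP : S.PP A hv B) (hm : m ≤ 0) (hz : S.Cp A B z1) (hz1 : z1 ≠ A) (hz2 : z1 ≠ B) :
    Ac (Po {E | A < E ∧ E ≤ B ∧ S.PP A hv E ∧ m ≤ S.D A E}) (S.nu A B).toNat := by
  obtain ⟨z2, hc2, hinf, hsup, -, -, -, -, -⟩ := Cp_compl S hok hz
  have hA1 : A < z1 := lt_of_le_of_ne hz.1 (Ne.symm hz1)
  have hB1 : z1 < B := lt_of_le_of_ne hz.2.1 hz2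
  have r1 := S.rk_lt _ _ hB1
  have r2 := S.rk_lt _ _ hA1
  have hP1 : S.PP A hv z1 := hP.sub hz
  have hok1 := S.ok_sub A B z1 B hok hz.1 hz.2.1 le_rfl
  have hPB : S.PP z1 (S.hvs A hv) B := (PP_iff S hok hP1 hz.2.1).1 hP
  have rkle : ∀ x y, x ≤ y → S.rk x ≤ S.rk y := by
    intro x y hxy
    rcases hxy.eq_or_lt with h1 | h1
    · rw [h1]
    · exact (S.rk_lt _ _ h1).le
  have hnu := S.nu_sub A z1 B hok hz.1 hz.2.1
  have key := PLB {x | x ≤ z1 ∧ S.PP A hv x} {y | y ≤ B ∧ S.PP z1 (S.hvs A hv) y} A z1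
    ⟨hz.1, PP_self A hv⟩ (fun x hx => hx.2.1) ⟨hz.2.1, PP_self z1 _⟩ (fun x hx => hx.2.1)
    S.rk S.rk (S.rk z1) (S.rk B) (fun x _ y _ hxy => S.rk_lt x y hxy) (fun x _ y _ hxy => S.rk_lt x y hxy)
    (fun x hx => rkle _ _ hx.1) (fun x hx => rkle _ _ hx.1) (fun x => S.D A x) (fun x => S.D z1 x)
    (D_self A) (D_self z1) (S.w A) (fun x _ => by
      have h0 : 0 ≤ S.w x := by unfold w; positivity
      show S.w A - S.w x ≤ S.w A
      linarith) (n1 := (S.nu A z1).toNat) (n2 := (S.nu z1 B).toNat) ?_ ?_ ?_ m hm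
  · have key2 := Ac_retract (P := {z : X × X | z.1 ∈ {x | x ≤ z1 ∧ S.PP A hv x} ∧
        z.2 ∈ {y | y ≤ B ∧ S.PP z1 (S.hvs A hv) y} ∧ z ≠ (A, z1) ∧ m ≤ S.D A z.1 + S.D z1 z.2})
      (Q := {E | A < E ∧ E ≤ B ∧ S.PP A hv E ∧ m ≤ S.D A E})
      (fun z => z.1 ⊔ (z.2 ⊓ z2)) (fun E => (E ⊓ z1, E ⊔ z1)) ?_ ?_ ?_ ?_ ?_ key
    · exact key2.mono (by omega)
    · rintro ⟨x, y⟩ ⟨⟨h1, h2⟩, ⟨h3, h4⟩, h5, h6⟩
      simp only at h1 h2 h3 h4 h6 ⊢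
      obtain ⟨a1, a2, a3, a4⟩ := S.MP_snd (hv := hv) hok hz hc2 hinf hsup hP1 h4.1 h3
      refine ⟨lt_of_le_of_ne (h2.1.trans le_sup_left) ?_, sup_le (h1.trans hz.2.1) (inf_le_left.trans h3), ?_, ?_⟩
      · intro h7
        refine h5 ?_
        have e1 : x = A := le_antisymm (le_sup_left.trans h7.ge) h2.1
        have e2 : y ⊓ z2 = A := le_antisymm (le_sup_right.trans h7.ge) a2
        rw [e2, sup_eq_left.2 hz.1] at a1
        rw [e1, a1]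
      · exact (PR_PP S hok hz hc2 hinf h2.1 h1 a2 inf_le_right).2 ⟨h2, a4.1 h4⟩
      · rw [PR_D S hok hz hc2 hinf h2.1 h1 a2 inf_le_right, ← a3]
        exact h6
    · rintro E ⟨h1, h2, h3, h4⟩
      have hs := PR_sup S hok hz hc2 hsup h1.le h2
      have hx : A ≤ E ⊓ z1 := le_inf h1.le hz.1
      have hy : A ≤ E ⊓ z2 := le_inf h1.le hc2.1
      have hE1 : E ⊔ z1 ≤ B := sup_le h2 hz.2.1
      have hpp := (PR_PP S (hv := hv) hok hz hc2 hinf hx inf_le_right hy inf_le_right).1 (by rw [hs]; exact h3)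
      have hpu := PP_sup S (S.ok_sub A B A (E ⊔ z1) hok le_rfl (h1.le.trans le_sup_left) hE1) h3 hP1
      have hpz := (PP_iff S (S.ok_sub A B A (E ⊔ z1) hok le_rfl (h1.le.trans le_sup_left) hE1) hP1 le_sup_right).1 hpu
      have hD : S.D A E = S.D A (E ⊓ z1) + S.D A (E ⊓ z2) := by
        rw [← PR_D S hok hz hc2 hinf hx inf_le_right hy inf_le_right, hs]
      have e1 : (E ⊔ z1) ⊓ z2 = E ⊓ z2 := by
        have e2 : E ⊔ z1 = z1 ⊔ (E ⊓ z2) := by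
          conv_lhs => rw [← hs]
          rw [sup_comm, ← sup_assoc, sup_eq_left.2 (inf_le_right : E ⊓ z1 ≤ z1)]
        rw [e2]
        exact (PR_inf S hok hz hc2 hinf hz.1 le_rfl hy inf_le_right).2
      obtain ⟨a1, a2, a3, a4⟩ := S.MP_snd (hv := hv) hok hz hc2 hinf hsup hP1 (y := E ⊔ z1) le_sup_right hE1
      rw [e1] at a3
      refine ⟨⟨inf_le_right, hpp.1⟩, ⟨hE1, hpz⟩, ?_, ?_⟩
      · intro h5
        rw [Prod.mk.injEq] at h5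
        have h6 : E ≤ z1 := by
          rw [← h5.2]
          exact le_sup_left
        rw [inf_eq_left.2 h6] at h5
        exact h1.ne' h5.1
      · show m ≤ S.D A (E ⊓ z1) + S.D z1 (E ⊔ z1)
        rw [a3, ← hD]
        exact h4
    · intro x _ y _ hxy
      exact sup_le_sup hxy.1 (inf_le_inf_right _ hxy.2)
    · intro x _ y _ hxy
      exact ⟨inf_le_inf_right _ hxy, sup_le_sup_right hxy _⟩
    · rintro E ⟨h1, h2, -, -⟩
      have hs := PR_sup S hok hz hc2 hsup h1.le h2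
      have hy : A ≤ E ⊓ z2 := le_inf h1.le hc2.1
      have e1 : (E ⊔ z1) ⊓ z2 = E ⊓ z2 := by
        have e2 : E ⊔ z1 = z1 ⊔ (E ⊓ z2) := by
          conv_lhs => rw [← hs]
          rw [sup_comm, ← sup_assoc, sup_eq_left.2 (inf_le_right : E ⊓ z1 ≤ z1)]
        rw [e2]
        exact (PR_inf S hok hz hc2 hinf hz.1 le_rfl hy inf_le_right).2
      show (E ⊓ z1) ⊔ ((E ⊔ z1) ⊓ z2) = E
      rw [e1]
      exact hs
  · intro m' hm'
    have h1 := (h A z1 le_rfl hz.2.1 hz.1 (by linarith)).2 m' hv (S.ok_sub A B A z1 hok le_rfl hz.1 hz.2.1) hP1 hm'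
    have e : {E | A < E ∧ E ≤ z1 ∧ S.PP A hv E ∧ m' ≤ S.D A E} =
        {x | x ∈ {x | x ≤ z1 ∧ S.PP A hv x} ∧ x ≠ A ∧ m' ≤ S.D A x} := by
      ext E
      simp only [Set.mem_ofPred_eq]
      constructor
      · rintro ⟨h2, h3, h4, h5⟩
        exact ⟨⟨h3, h4⟩, h2.ne', h5⟩
      · rintro ⟨⟨h2, h3⟩, h4, h5⟩
        exact ⟨lt_of_le_of_ne h3.1 (Ne.symm h4), h2, h3, h5⟩
    rw [← e]
    exact h1
  · have h1 := (h z1 B hz.1 le_rfl hz.2.1 (by linarith)).2 0 (S.hvs A hv) hok1 hPB le_rfl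
    have e : {E | z1 < E ∧ E ≤ B ∧ S.PP z1 (S.hvs A hv) E ∧ 0 ≤ S.D z1 E} =
        {x | x ∈ {x | x ≤ B ∧ S.PP z1 (S.hvs A hv) x} ∧ x ≠ z1 ∧ 0 ≤ S.D z1 x} := by
      ext E
      simp only [Set.mem_ofPred_eq]
      constructor
      · rintro ⟨h2, h3, h4, h5⟩
        exact ⟨⟨h3, h4⟩, h2.ne', h5⟩
      · rintro ⟨⟨h2, h3⟩, h4, h5⟩
        exact ⟨lt_of_le_of_ne h3.1 (Ne.symm h4), h2, h3, h5⟩
    rw [← e]
    exact h1
  · rintro y ⟨hy1, hy2⟩ hyA hyD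
    have hAy : z1 < y := lt_of_le_of_ne hy2.1 (Ne.symm hyA)
    have r3 := S.rk_lt _ _ hAy
    have r4 := rkle _ _ hy1
    have hsub := S.nu_sub z1 y B hok1 hAy.le hy1
    refine ⟨(S.nu z1 y).toNat, (S.nu y B).toNat, by omega, ?_, ?_⟩
    · have h1 := (h z1 y hz.1 hy1 hAy.le (by linarith)).2 (S.D z1 y + 1) (S.hvs A hv)
        (S.ok_sub A B z1 y hok hz.1 hAy.le hy1) hy2 (by linarith)
      have e : {E | z1 < E ∧ E ≤ y ∧ S.PP z1 (S.hvs A hv) E ∧ S.D z1 y + 1 ≤ S.D z1 E} =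
          {y' | y' ∈ {x | x ≤ B ∧ S.PP z1 (S.hvs A hv) x} ∧ y' ≠ z1 ∧ y' < y ∧ S.D z1 y + 1 ≤ S.D z1 y'} := by
        ext E
        simp only [Set.mem_ofPred_eq]
        constructor
        · rintro ⟨h2, h3, h4, h5⟩
          refine ⟨⟨h3.trans hy1, h4⟩, h2.ne', lt_of_le_of_ne h3 ?_, h5⟩
          rintro rfl
          linarith
        · rintro ⟨⟨h2, h3⟩, h4, h5, h6⟩
          exact ⟨lt_of_le_of_ne h3.1 (Ne.symm h4), h5.le, h3, h6⟩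
      rw [← e]
      exact h1
    · have h1 := (h y B (hz.1.trans hAy.le) le_rfl hy1 (by linarith)).2 0 (S.hvs z1 (S.hvs A hv))
        (S.ok_sub A B y B hok (hz.1.trans hAy.le) hy1 le_rfl)
        ((PP_iff S hok1 hy2 hy1).1 hPB) le_rfl
      have e : {E | y < E ∧ E ≤ B ∧ S.PP y (S.hvs z1 (S.hvs A hv)) E ∧ 0 ≤ S.D y E} =
          {y' | y' ∈ {x | x ≤ B ∧ S.PP z1 (S.hvs A hv) x} ∧ y < y' ∧ S.D z1 y ≤ S.D z1 y'} := by
        ext E
        simp only [Set.mem_ofPred_eq]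
        have hDD := D_add (S := S) z1 y E
        constructor
        · rintro ⟨h2, h3, h4, h5⟩
          refine ⟨⟨h3, ?_⟩, h2, by linarith⟩
          exact (PP_iff S (S.ok_sub A B z1 E hok hz.1 (hAy.le.trans h2.le) h3) hy2 h2.le).2 h4
        · rintro ⟨⟨h2, h3⟩, h4, h5⟩
          refine ⟨h4, h2, ?_, by linarith⟩
          exact (PP_iff S (S.ok_sub A B z1 E hok hz.1 (hAy.le.trans h4.le) h2) hy2 h4.le).1 h3
      rw [← e]
      exact h1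

end Slb
end TorT
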