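import Pool.Agent.Lib.MP_05cdf2_gt.T.Def
import Pool.Agent.Lib.MP_05cdf2_gt.A.RTA

/-! MP_05cdf2_gt, stream T, job TA: the T-argument lemma (posets only), from helper49's `ta`. -/

set_option autoImplicit false

namespace TorT
open TorA

theorem TA {X T : Type} [PartialOrder X] [PartialOrder T] (P : Set X) (hu : T → X) (sz : T → ℕ)
    (rk : X → ℤ) (R : ℤ) (hrk : ∀ x ∈ P, ∀ y ∈ P, x < y → rk x < rk y) (hR : ∀ x ∈ P, rk x ≤ R)
    (mono : ∀ s t, s ≤ t → hu s ≤ hu t) (sz_lt : ∀ s t : T, s < t → sz s < sz t) {n : ℕ}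
    (h3 : Ac (Po (Set.univ : Set T)) n)
    (h1 : ∀ E ∈ P, ∃ a b, n ≤ a + b + 1 ∧ Ac (Po {t | hu t ≤ E}) a ∧ Ac (Po {E' | E' ∈ P ∧ E < E'}) b)
    (h2 : ∀ t, ∃ a b, n ≤ a + b ∧ Ac (Po {s | s < t}) a ∧ Ac (Po {E | E ∈ P ∧ hu t ≤ E}) b) :
    Ac (Po P) n := by
  refine ta P hu (fun s t h => mono s t h) sz sz_lt (fun x => (R - rk x).toNat) ?_ h3 ?_ ?_
  · intro x hx y hy hxy
    have e1 := hrk x hx y hy hxy
    have e2 := hR y hy
    show (R - rk y).toNat < (R - rk x).toNat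
    omega
  · intro E hE
    obtain ⟨a, b, e1, e2, e3⟩ := h1 E hE
    exact ⟨a, b, e2, e3, e1⟩
  · intro t
    obtain ⟨a, b, e1, e2, e3⟩ := h2 t
    exact ⟨a, b, e2, e3, e1⟩

end TorT
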