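import Pool.Agent.Lib.MP_05cdf2_gt.T.SepA
import Pool.Agent.Lib.MP_05cdf2_gt.T.TA

/-! MP_05cdf2_gt, stream T, job SepB: the theorem (SEP).

Strong induction on `(rk B - rk A).toNat` (for all `A`, `B`). Let `p = card (fr A \ fr B) ≥ 1`, `N = nf B - nf A`, `n = (N - 1).toNat` if `p = 1`, `(N - p + 1).toNat` if `p ≥ 2`;
`P = {E | A < E ∧ E < B ∧ w E = w B}`, `hv = Set.univ` if `p = 1`, `∅` if `p ≥ 2`. `Wt hv (fr A \ fr B)` holds; take the `ArcS A B hv` from `HN` (instance `po`). Apply `TA` with `rk`, `R = rk B`.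
(h3) field `ac` for `E = B` (`Cn.pp`): `Ac N.toNat` for `{t | hu t ≤ B}` = everything (field `le`), `n ≤ N.toNat`.
(h1) `E ∈ P`: by `Sep_E`: `Cn A E`, `fr A \ fr E = fr A \ fr B`, so `PP A hv E` (`Cn.pp`), field `ac`: `a = (nf E - nf A).toNat`. `{E' ∈ P | E < E'} = {E' | E < E' ∧ E' < B ∧ w E' = w B}`: induction for `(E,B)` (`Cn E B`,
`card (fr B \ fr E) = 1`, `card (fr E \ fr B) = 1`, `rk A < rk E`): `b = (nf B - nf E - 1).toNat`. `a + b + 1 ≥ N ≥ n` (for `p ≥ 2`: `N - p + 1 ≤ N - 1`).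
(h2) `t`, `H = hu t`, `D = D A H = w A - w H`, `sz t = 2 (nf H - nf A) - D`; `a = sz t - 1` (field `below`).
 * `H < B` and `w H = w B`: `H` is the least element of `{E ∈ P | H ≤ E}`: `AcI_of_min`, take `b = n`.
 * `H = B`: `b = 0`; `D = w A - w B = p - 1` (`card_bot`, `card_top`), `a = 2 N - p` and `n ≤ 2N - p` (`p = 1`: field `nonneg`, `N ≥ 0`; `p ≥ 2`: field `light`, `N ≥ 1`).
 * otherwise `Cn H B` and `fr H ∩ fr B = fr A ∩ fr B` (field `top`), `w H ≠ w B`; `card (fr B \ fr H) = 1` (`card_top`), `p' = card (fr H \ fr B) = w H - card (fr A ∩ fr B) ≥ 1` (`Sep_bot`), `p' ≠ 1` since `w H ≠ w B`;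
   `{E ∈ P | H ≤ E} = {E | H < E ∧ E < B ∧ w E = w B}`; induction for `(H,B)`: `b = (nf B - nf H - p' + 1).toNat`; `p' = p - D`; `a + b ≥ 2 (nf H - nf A) - D - 1 + nf B - nf H - p + D + 1 = N + (nf H - nf A) - p`, which is
   `≥ N - 1` if `p = 1` (field `nonneg`) and `≥ N - p + 1` if `p ≥ 2` (field `light`). -/

set_option autoImplicit false

namespace TorT
open TorA
namespace Slb
variable {X C : Type} [Lattice X] [DecidableEq C] (S : Slb X C)

theorem SepB_aux (hN : S.HN) : ∀ (k : ℕ) (A B : X), (S.rk B - S.rk A).toNat = k → S.ok A B → S.Cn A B →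
    (S.fr B \ S.fr A).card = 1 → 1 ≤ (S.fr A \ S.fr B).card →
    Ac (Po {E | A < E ∧ E < B ∧ S.w E = S.w B})
      (if (S.fr A \ S.fr B).card = 1 then S.nu A B - 1
        else S.nu A B - ((S.fr A \ S.fr B).card : ℤ) + 1).toNat := by
  intro k
  induction k using Nat.strong_induction_on with
  | _ k ih =>
    intro A B hk hok hc h1 h2
    have hAB := S.rk_lt A B hc.1
    obtain ⟨p, hp⟩ : ∃ p, p = (S.fr A \ S.fr B).card := ⟨_, rfl⟩
    have cA := S.card_bot A B
    have cB := S.card_top A B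
    rw [← hp] at cA h2 ⊢
    rw [h1] at cB
    obtain ⟨hv, hhv⟩ : ∃ hv : Set C, (p = 1 ∧ hv = Set.univ) ∨ (2 ≤ p ∧ hv = ∅) := by
      by_cases h3 : p = 1
      · exact ⟨Set.univ, Or.inl ⟨h3, rfl⟩⟩
      · exact ⟨∅, Or.inr ⟨by omega, rfl⟩⟩
    have hw : Wt hv (S.fr A \ S.fr B) := by
      rcases hhv with ⟨h3, h4⟩ | ⟨h3, h4⟩
      · obtain ⟨c, hcc⟩ := Finset.card_pos.1 (show 0 < (S.fr A \ S.fr B).card by omega)
        exact Or.inr ⟨c, hcc, by rw [h4]; exact Set.mem_univ c⟩
      · exact Or.inl (by omega)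
    obtain ⟨n, hn⟩ : ∃ n : ℕ, n = (if p = 1 then S.nu A B - 1 else S.nu A B - (p : ℤ) + 1).toNat :=
      ⟨_, rfl⟩
    rw [← hn]
    obtain ⟨AS⟩ := hN A B hv hok hc (by omega) hw
    let _ := AS.po
    have hPB : S.PP A hv B := hc.pp hw
    have hn' : (p = 1 ∧ hv = Set.univ ∧ n = (S.nu A B - 1).toNat) ∨
        (2 ≤ p ∧ hv = ∅ ∧ n = (S.nu A B - (p : ℤ) + 1).toNat) := by
      rcases hhv with ⟨h3, h4⟩ | ⟨h3, h4⟩
      · refine Or.inl ⟨h3, h4, ?_⟩
        rw [if_pos h3] at hn
        exact hn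
      · refine Or.inr ⟨h3, h4, ?_⟩
        rw [if_neg (by omega)] at hn
        exact hn
    have hn1 : n ≤ (S.nu A B).toNat := by
      rcases hn' with ⟨-, -, h3⟩ | ⟨h4, -, h3⟩ <;> rw [h3] <;> omega
    have hrkB : ∀ E, E < B → S.rk E ≤ S.rk B := fun E hE => (S.rk_lt _ _ hE).le
    refine TA {E | A < E ∧ E < B ∧ S.w E = S.w B} AS.hu AS.sz S.rk (S.rk B)
      (fun x _ y _ hxy => S.rk_lt x y hxy) (fun x hx => hrkB x hx.2.1) AS.mono AS.sz_lt ?_ ?_ ?_
    · have h3 := AS.ac B hc.1 le_rfl hPB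
      have e : {t | AS.hu t ≤ B} = (Set.univ : Set AS.T) := Set.eq_univ_of_forall fun t => AS.le t
      rw [e] at h3
      exact h3.mono hn1
    · rintro E ⟨hAE, hEB, hwE⟩
      obtain ⟨e1, e2, e3, e4, e5, e6, e7⟩ := Sep_E S hok hc h1 hAE hEB hwE
      have hPE : S.PP A hv E := e1.pp (by rw [e3]; exact hw)
      have r1 := S.rk_lt A E hAE
      have r2 := S.rk_lt E B hEB
      have hsub := S.nu_sub A E B hok hAE.le hEB.le
      refine ⟨(S.nu A E).toNat, (S.nu E B - 1).toNat, ?_, AS.ac E hAE hEB.le hPE, ?_⟩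
      · rcases hn' with ⟨-, -, h3⟩ | ⟨h4, -, h3⟩ <;> rw [h3] <;> omega
      · have h3 := ih (S.rk B - S.rk E).toNat (by omega) E B rfl (S.ok_sub A B E B hok hAE.le hEB.le le_rfl) e2 e6
          (by omega)
        rw [if_pos e5] at h3
        have e : {E' | E < E' ∧ E' < B ∧ S.w E' = S.w B} =
            {E' | E' ∈ {E | A < E ∧ E < B ∧ S.w E = S.w B} ∧ E < E'} := by
          ext E'
          simp only [Set.mem_ofPred_eq]
          constructor
          · rintro ⟨h4, h5, h6⟩
            exact ⟨⟨hAE.trans h4, h5, h6⟩, h4⟩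
          · rintro ⟨⟨h4, h5, h6⟩, h7⟩
            exact ⟨h7, h5, h6⟩
        rw [← e]
        exact h3
    · intro t
      have hAH := AS.lt t
      have hHB := AS.le t
      have hnum := AS.num t
      have hpos := AS.sz_pos t
      have hlight := fun h0 => AS.light h0 t
      have hself := S.nu_self B
      have hDd : S.D A (AS.hu t) = S.w A - S.w (AS.hu t) := rfl
      by_cases hwH : S.w (AS.hu t) = S.w B
      · by_cases hHe : AS.hu t = B
        · refine ⟨AS.sz t - 1, 0, ?_, AS.below t, Ac_zero _⟩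
          rw [hHe] at hnum hlight
          rw [hHe] at hDd
          rcases hn' with ⟨h3, h4, h5⟩ | ⟨h3, h4, h5⟩
          · rw [h5]
            omega
          · have h6 := hlight (by
              intro c _
              rw [h4]
              exact Set.notMem_empty c)
            rw [h5]
            omega
        · refine ⟨AS.sz t - 1, n, by omega, AS.below t, ?_⟩
          exact (AcI_of_min (P := {E | E ∈ {E | A < E ∧ E < B ∧ S.w E = S.w B} ∧ AS.hu t ≤ E}) (AS.hu t)
            ⟨⟨hAH, lt_of_le_of_ne hHB hHe, hwH⟩, le_rfl⟩ (fun x hx => hx.2)) n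
      · rcases AS.top t with hHe | ⟨hcn, hint⟩
        · exact absurd (by rw [hHe]) hwH
        · have cH := S.card_bot (AS.hu t) B
          have cH2 := S.card_top (AS.hu t) B
          have hSb := Sep_bot S hc hAH hcn hint
          rw [hint] at cH cH2
          have r1 := S.rk_lt A _ hAH
          have r2 := S.rk_lt _ B hcn.1
          have h3 := ih (S.rk B - S.rk (AS.hu t)).toNat (by omega) (AS.hu t) B rfl
            (S.ok_sub A B (AS.hu t) B hok hAH.le hHB le_rfl) hcn (by omega) hSb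
          rw [if_neg (by omega)] at h3
          refine ⟨AS.sz t - 1, (S.nu (AS.hu t) B - ((S.fr (AS.hu t) \ S.fr B).card : ℤ) + 1).toNat, ?_,
            AS.below t, ?_⟩
          · rcases hn' with ⟨h4, h5, h6⟩ | ⟨h4, h5, h6⟩
            · rw [h6]
              omega
            · have h7 := hlight (by
                intro c _
                rw [h5]
                exact Set.notMem_empty c)
              rw [h6]
              omega
          · have e : {E' | AS.hu t < E' ∧ E' < B ∧ S.w E' = S.w B} =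
                {E' | E' ∈ {E | A < E ∧ E < B ∧ S.w E = S.w B} ∧ AS.hu t ≤ E'} := by
              ext E'
              simp only [Set.mem_ofPred_eq]
              constructor
              · rintro ⟨h4, h5, h6⟩
                exact ⟨⟨hAH.trans h4, h5, h6⟩, h4.le⟩
              · rintro ⟨⟨h4, h5, h6⟩, h7⟩
                refine ⟨lt_of_le_of_ne h7 ?_, h5, h6⟩
                intro h8
                rw [← h8] at h6
                exact hwH h6
            rw [← e]
            exact h3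

theorem Sep (hN : S.HN) (A B : X) (hok : S.ok A B) (hc : S.Cn A B) (h1 : (S.fr B \ S.fr A).card = 1)
    (h2 : 1 ≤ (S.fr A \ S.fr B).card) :
    Ac (Po {E | A < E ∧ E < B ∧ S.w E = S.w B})
      (if (S.fr A \ S.fr B).card = 1 then S.nu A B - 1
        else S.nu A B - ((S.fr A \ S.fr B).card : ℤ) + 1).toNat :=
  S.SepB_aux hN _ A B rfl hok hc h1 h2

end Slb
end TorT
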