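import Pool.Agent.Lib.MP_05cdf2_gt.T.MainA
import Pool.Agent.Lib.MP_05cdf2_gt.T.MainB
import Pool.Agent.Lib.MP_05cdf2_gt.T.SepB

/-! MP_05cdf2_gt, stream T: (I), (II) for all intervals; the fields `In1`, `In2` of `HLat`. -/

set_option autoImplicit false

namespace TorT
open TorA
namespace Slb
variable {X C : Type} [Lattice X] [DecidableEq C] (S : Slb X C)

theorem main (hN : S.HN) : ∀ (n : ℕ) (A B : X), A ≤ B → (S.rk B - S.rk A).toNat = n → S.StI A B ∧ S.StII A B := by
  intro n
  induction n using Nat.strong_induction_on with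
  | _ n ih =>
    intro A B hAB hn
    have hS : S.Sm A B := by
      intro A' B' h1 h2 h3 h4
      have h5 : S.rk A' ≤ S.rk B' := by
        rcases h3.eq_or_lt with h | h
        · rw [h]
        · exact (S.rk_lt _ _ h).le
      exact ih _ (by omega) A' B' h3 rfl
    refine ⟨S.MainI hN A B hS, ?_⟩
    intro m hv hok hP hm
    by_cases hc : S.Cn A B
    · exact S.MainII hN A B hS m hv hok hc hP hm
    · rcases hAB.eq_or_lt with h | h
      · have e : {E | A < E ∧ E ≤ B ∧ S.PP A hv E ∧ m ≤ S.D A E} = (∅ : Set X) := by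
          ext E
          simp only [Set.mem_setOf_eq, Set.mem_empty_iff_false, iff_false]
          rintro ⟨h1, h2, -⟩
          rw [← h] at h2
          exact absurd (h1.trans_le h2) (lt_irrefl _)
        rw [← h]
        have h0 := S.nu_self A
        rw [Int.toNat_of_nonpos h0]
        exact Ac_zero _
      · have h2 : ∃ z, S.Cp A B z ∧ z ≠ A ∧ z ≠ B := by
          by_contra hcon
          push Not at hcon
          refine hc ⟨h, fun z hz => ?_⟩
          by_cases h3 : z = A
          · exact Or.inl h3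
          · exact Or.inr (hcon z hz h3)
        obtain ⟨z, hz, hz1, hz2⟩ := h2
        exact S.MainP A B z hS m hv hok hP hm hz hz1 hz2

theorem cn_of {x y : X} (h : x < y) (h2 : ∀ z, x < z → z < y → ¬ S.fr z ⊆ S.fr x ∪ S.fr y) : S.Cn x y := by
  refine ⟨h, fun z hz => ?_⟩
  by_contra hcon
  push Not at hcon
  exact h2 z (lt_of_le_of_ne hz.1 (Ne.symm hcon.1)) (lt_of_le_of_ne hz.2.1 hcon.2) hz.2.2

theorem In1 (hN : S.HN) (x y : X) (h : x < y) (hok : S.ok x y) (hw : (S.fr x).card = (S.fr y).card)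
    (hc : ∀ z, x < z → z < y → ¬ S.fr z ⊆ S.fr x ∪ S.fr y) (h2 : 2 ≤ (S.fr x \ S.fr y).card) :
    Ac (Po {z | x < z ∧ z < y ∧ (S.fr z).card < (S.fr x).card}) (S.nu x y).toNat := by
  have hD : S.D x y = 0 := by
    unfold D w
    rw [hw]
    ring
  have h3 := (S.main hN _ x y h.le rfl).1 1 hok (S.cn_of h hc) le_rfl (by omega) (by omega)
  have e : {E | x ≤ E ∧ E ≤ y ∧ 1 ≤ S.D x E} = {z | x < z ∧ z < y ∧ (S.fr z).card < (S.fr x).card} := by
    ext E
    simp only [Set.mem_setOf_eq]
    have e1 : 1 ≤ S.D x E ↔ (S.fr E).card < (S.fr x).card := by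
      unfold D w
      omega
    rw [e1]
    constructor
    · rintro ⟨h4, h5, h6⟩
      refine ⟨lt_of_le_of_ne h4 ?_, lt_of_le_of_ne h5 ?_, h6⟩
      · rintro rfl
        exact lt_irrefl _ h6
      · rintro rfl
        omega
    · rintro ⟨h4, h5, h6⟩
      exact ⟨h4.le, h5.le, h6⟩
  rw [e] at h3
  have e2 : S.nu x y - 1 + 1 = S.nu x y := by ring
  rwa [e2] at h3

theorem In2 (hN : S.HN) (x y : X) (h : x < y) (hok : S.ok x y) (hw : (S.fr x).card = (S.fr y).card)
    (hc : ∀ z, x < z → z < y → ¬ S.fr z ⊆ S.fr x ∪ S.fr y) (h2 : (S.fr x \ S.fr y).card = 1) :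
    (∀ z, x ≤ z → z ≤ y → (S.fr x).card ≤ (S.fr z).card) ∧
    Ac (Po {z | x < z ∧ z < y ∧ (S.fr z).card = (S.fr x).card}) (S.nu x y - 1).toNat := by
  have c1 : (S.fr x \ S.fr y).card + (S.fr x ∩ S.fr y).card = (S.fr x).card := Finset.card_sdiff_add_card_inter _ _
  have c2 : (S.fr y \ S.fr x).card + (S.fr y ∩ S.fr x).card = (S.fr y).card := Finset.card_sdiff_add_card_inter _ _
  rw [Finset.inter_comm] at c2
  constructor
  · intro z h3 h4
    by_contra hlt
    push Not at hlt
    have hsub : S.fr x ∩ S.fr y ⊆ S.fr z := by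
      intro c hcc
      rw [Finset.mem_inter] at hcc
      exact S.conv x z y c h3 h4 hcc.1 hcc.2
    have heq : S.fr x ∩ S.fr y = S.fr z := Finset.eq_of_subset_of_card_le hsub (by omega)
    have hz : S.Cp x y z := ⟨h3, h4, by
      rw [← heq]
      exact Finset.inter_subset_left.trans Finset.subset_union_left⟩
    rcases (S.cn_of h hc).2 z hz with h5 | h5
    · rw [h5] at hlt
      exact lt_irrefl _ hlt
    · rw [h5] at hlt
      omega
  · have h3 := S.Sep hN x y hok (S.cn_of h hc) (by omega) (by omega)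
    rw [if_pos h2] at h3
    have e : {E | x < E ∧ E < y ∧ S.w E = S.w y} = {z | x < z ∧ z < y ∧ (S.fr z).card = (S.fr x).card} := by
      ext E
      simp only [Set.mem_setOf_eq]
      unfold w
      rw [hw]
      simp
    rwa [e] at h3

end Slb
end TorT
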