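import Pool.Agent.Lib.MP_05cdf2_gt.T.PT

/-! MP_05cdf2_gt, stream T, job CL: the interior operator (drop the components of weight less than two).

Call `z` thin if `∀ z', Cp A z z' → Cn A z' → ¬ Wt hv (fr A \ fr z')`.
`exists_cl`. Let `A ≤ E`, `ok A E`. The set of the `G` with `Cp A E G` and `PP A hv G` contains `A` and is closed under `⊔` (`Cp_lat`, `PP_sup`; `G ⊔ G' ≤ E`, `ok_sub`), and `rk` is
bounded on it by `rk E`; so it has a greatest element `G`. Let `z` be the complement of `G` in `[A,E]` (`Cp_compl`). `z` is thin: `Cp A z z'`, `Cn A z'`, `Wt` imply `PP A hv z'` (`Cn.pp`) and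
`Cp A E z'`, so `z' ≤ G`, `z' ≤ G ⊓ z = A`, contradiction. Let `F ≤ E`, `PP A hv F`. Claim `F ⊓ z = A`. Let `y = F ⊓ z`, `Cp A F y` (`Cp_inf`), so `PP A hv y` (`PP.sub`). Suppose `y ≠ A`. Among the `z'`
with `Cp A z z'`, `y ⊓ z' ≠ A` (`z` is one of them) take one with smallest `rk` (`rk ≥ rk A`). Then `Cn A z'`: `z' ≠ A`; for `Cp A z' z1`, `z1 ≠ A`, `z1 ≠ z'` let `z2` be the complement of `z1` in
`[A,z']`, also `≠ z'` (else `z1 = z1 ⊓ z2 = A`); `y ⊓ z' = (y ⊓ z1) ⊔ (y ⊓ z2)` (`dist_inf` in `Lam A y z`, all of `y, z', z1, z2` are in it), so `y ⊓ z1 ≠ A` or `y ⊓ z2 ≠ A`, against the minimality.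
`Cp A y (z' ⊓ y)` by `Cp_inf`, so `Wt hv (fr A \ fr (z' ⊓ y))`, hence `Wt hv (fr A \ fr z')` by `bot_mono`: contradiction with thin. So `F ⊓ z = A` and
`F = F ⊓ (G ⊔ z) = (F ⊓ G) ⊔ (F ⊓ z) = (F ⊓ G) ⊔ A = F ⊓ G` (`dist_inf` in `Lam A F E`), `F ≤ G`.
`thin_w`. `Cn A B`, `Wt hv (fr A \ fr B)`, `ok A B`, `z ≤ B` thin, `A ≤ z`: then `w A ≤ w z`. Strong induction on `(rk z - rk A).toNat`. If `z = A` done. Otherwise take `z'` with `Cp A z z'`, `z' ≠ A` of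
smallest `rk`: then `Cn A z'` (a `z1` with `Cp A z' z1` has `Cp A z z1`). `w z' ≥ w A`: `¬ Wt` gives `card (fr A \ fr z') ≤ 1`. If it is `0` then `fr A ⊆ fr z'`. If it is `1`: `fr z'` is not contained in
`fr A`: otherwise `Cp A B z'`, so `z' = A` or `z' = B`, but `Wt hv (fr A \ fr B)`. So `card (fr z') ≥ card (fr A)`. Let `z''` be the complement of `z'` in `[A,z]`: `w z' + w z'' = w A + w z`
(`Cp_compl`), `z''` is thin (`Cp.trans`), `z'' < z` (if `z'' = z` then `z' = z' ⊓ z'' = A`); by induction `w z'' ≥ w A`. So `w z ≥ w A`.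
`exists_cl` part 3: `w G ≤ w E`: `w G + w z = w A + w E` and `w z ≥ w A`.
`CL_ac`: put `f E` = the greatest `F ≤ E` with `PP A hv F` (choose; `f E = E` if `PP A hv E`; monotone). `Q = {E | A ≤ E ∧ E ≤ B ∧ m ≤ D A E}`, `Q' = {E ∈ Q | PP A hv E}`: `Ac_deform` (`f E ≤ E`) gives
`Ac (Po Q') n → Ac (Po Q) n`, `Ac_retract` (`φ = f`, `ψ = id`) gives the converse. -/

set_option autoImplicit false

namespace TorT
open TorA
namespace Slb
variable {X C : Type} [Lattice X] [DecidableEq C] (S : Slb X C)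

theorem exists_cl {A E : X} (hv : Set C) (hok : S.ok A E) (h : A ≤ E) :
    ∃ G, S.Cp A E G ∧ S.PP A hv G ∧ (∀ F, F ≤ E → S.PP A hv F → F ≤ G) ∧
      (∀ z, G ⊓ z = A → G ⊔ z = E → S.Cp A E z → ∀ z', S.Cp A z z' → S.Cn A z' → ¬ Wt hv (S.fr A \ S.fr z')) := by
  classical
  have rk_le : ∀ x y : X, x ≤ y → S.rk x ≤ S.rk y := by
    intro x y hxy
    rcases hxy.eq_or_lt with h1 | h1
    · rw [h1]
    · exact (S.rk_lt _ _ h1).le
  -- the element of largest area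
  obtain ⟨G, ⟨hG1, hG2⟩, hG3⟩ : ∃ G, (S.Cp A E G ∧ S.PP A hv G) ∧
      ∀ G', S.Cp A E G' → S.PP A hv G' → S.rk G' ≤ S.rk G := by
    have hex : ∃ n : ℕ, ∃ G, (S.Cp A E G ∧ S.PP A hv G) ∧ (S.rk E - S.rk G).toNat = n :=
      ⟨_, A, ⟨Cp_left h, PP_self A hv⟩, rfl⟩
    obtain ⟨G, hG, hn⟩ := Nat.find_spec hex
    refine ⟨G, hG, ?_⟩
    intro G' h1 h2
    have h3 := Nat.find_min' hex ⟨G', ⟨h1, h2⟩, rfl⟩
    rw [← hn] at h3
    have h4 := rk_le G E hG.1.2.1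
    have h5 := rk_le G' E h1.2.1
    omega
  have hmax : ∀ G', S.Cp A E G' → S.PP A hv G' → G' ≤ G := by
    intro G' h1 h2
    have h3 : S.Cp A E (G ⊔ G') := (S.Cp_lat hok hG1 h1).1
    have h4 : S.PP A hv (G ⊔ G') := by
      refine S.PP_sup (S.ok_sub A E A _ hok le_rfl (hG1.1.trans le_sup_left) h3.2.1) hG2 h2
    have h5 := hG3 _ h3 h4
    by_contra hcon
    have h6 : G < G ⊔ G' := by
      refine lt_of_le_of_ne le_sup_left ?_
      intro h7
      exact hcon (le_sup_right.trans h7.symm.le)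
    have h7 := S.rk_lt _ _ h6
    omega
  have hthin : ∀ z, G ⊓ z = A → G ⊔ z = E → S.Cp A E z → ∀ z', S.Cp A z z' → S.Cn A z' →
      ¬ Wt hv (S.fr A \ S.fr z') := by
    intro z h1 h2 h3 z' h4 h5 h6
    have h7 : z' ≤ G := hmax z' (h3.trans h4) (h5.pp h6)
    have h8 : z' ≤ A := by
      rw [← h1]
      exact le_inf h7 h4.2.1
    exact absurd h5.1 (not_lt_of_ge h8)
  refine ⟨G, hG1, hG2, ?_, hthin⟩
  intro F hFE hF
  obtain ⟨z, hz, hz1, hz2, -⟩ := S.Cp_compl hok hG1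
  have hAF : A ≤ F := hF.1
  -- `F ⊓ z = A`
  have hFz : F ⊓ z = A := by
    by_contra hne
    have hokF : S.ok A F := S.ok_sub A E A F hok le_rfl hAF hFE
    set y := F ⊓ z with hy
    have hyF : S.Cp A F y := by
      have := S.Cp_inf hok hAF hFE hz
      rwa [inf_comm] at this
    have hyP : S.PP A hv y := hF.sub hyF
    have hyz : y ≤ z := inf_le_right
    have hAy : A ≤ y := hyF.1
    have hokz : S.ok A z := S.ok_sub A E A z hok le_rfl hz.1 hz.2.1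
    -- the smallest `z'`
    have hex : ∃ n : ℕ, ∃ z', (S.Cp A z z' ∧ y ⊓ z' ≠ A) ∧ (S.rk z' - S.rk A).toNat = n := by
      refine ⟨_, z, ⟨Cp_right hz.1, ?_⟩, rfl⟩
      rw [inf_eq_left.mpr hyz]
      exact hne
    obtain ⟨z', ⟨hz'1, hz'2⟩, hn⟩ := Nat.find_spec hex
    have hmin : ∀ z1, S.Cp A z z1 → y ⊓ z1 ≠ A → z1 ≤ z' → z1 = z' := by
      intro z1 h1 h2 h3
      have h4 := Nat.find_min' hex ⟨z1, ⟨h1, h2⟩, rfl⟩
      rw [← hn] at h4
      by_contra hcon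
      have h5 := S.rk_lt _ _ (lt_of_le_of_ne h3 hcon)
      have h6 := rk_le _ _ h1.1
      omega
    have hAz' : A ≤ z' := hz'1.1
    have hne' : z' ≠ A := by
      intro h1
      rw [h1, inf_eq_right.mpr hAy] at hz'2
      exact hz'2 rfl
    have hokz' : S.ok A z' := S.ok_sub A z A z' hokz le_rfl hz'1.1 hz'1.2.1
    have hCn : S.Cn A z' := by
      refine ⟨lt_of_le_of_ne hAz' (Ne.symm hne'), ?_⟩
      intro z1 h1
      by_contra hcon
      rw [not_or] at hcon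
      obtain ⟨z2, h2, h3, h4, -⟩ := S.Cp_compl hokz' h1
      have h5 : z2 ≠ z' := by
        intro h6
        rw [h6, inf_eq_left.mpr h1.2.1] at h3
        exact hcon.1 h3
      have hm : ∀ u, S.Cp A z' u → u ∈ S.Lam A y z := fun u hu =>
        S.Cp_mem hAy hyz (hz'1.trans hu)
      have h6 : y ⊓ (z1 ⊔ z2) = (y ⊓ z1) ⊔ (y ⊓ z2) :=
        S.dist_inf hokz hAy hyz (S.mem_Lam hAy hyz).2.1 (hm z1 h1) (hm z2 h2)
      rw [h4] at h6
      have h7 : y ⊓ z1 = A := by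
        by_contra h8
        exact hcon.2 (hmin z1 (hz'1.trans h1) h8 h1.2.1)
      have h8 : y ⊓ z2 = A := by
        by_contra h9
        exact h5 (hmin z2 (hz'1.trans h2) h9 h2.2.1)
      rw [h7, h8, sup_idem] at h6
      exact hz'2 h6
    have hcp : S.Cp A y (z' ⊓ y) := S.Cp_inf hokz hAy hyz hz'1
    have hWt : Wt hv (S.fr A \ S.fr z') := by
      have h1 : z' ⊓ y ≠ A := by
        rw [inf_comm]
        exact hz'2
      have h2 := (hyP.2 _ hcp).resolve_left h1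
      exact h2.mono (bot_mono (le_inf hAz' hAy) inf_le_left) (fun c _ hc => hc)
    exact hthin z hz1 hz2 hz z' hz'1 hCn hWt
  have h3 : F ⊓ (G ⊔ z) = (F ⊓ G) ⊔ (F ⊓ z) :=
    S.dist_inf hok hAF hFE (S.mem_Lam hAF hFE).2.1 (S.Cp_mem hAF hFE hG1) (S.Cp_mem hAF hFE hz)
  rw [hz2, inf_eq_left.mpr hFE, hFz, sup_eq_left.mpr (le_inf hAF hG1.1)] at h3
  rw [h3]
  exact inf_le_right

theorem thin_w {A B z : X} {hv : Set C} (hok : S.ok A B) (hc : S.Cn A B) (hw : Wt hv (S.fr A \ S.fr B))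
    (h1 : A ≤ z) (h2 : z ≤ B)
    (hz : ∀ z', S.Cp A z z' → S.Cn A z' → ¬ Wt hv (S.fr A \ S.fr z')) : S.w A ≤ S.w z := by
  classical
  have rk_le : ∀ x y : X, x ≤ y → S.rk x ≤ S.rk y := by
    intro x y hxy
    rcases hxy.eq_or_lt with h1 | h1
    · rw [h1]
    · exact (S.rk_lt _ _ h1).le
  obtain ⟨n, hn⟩ : ∃ n, (S.rk z - S.rk A).toNat = n := ⟨_, rfl⟩
  induction n using Nat.strong_induction_on generalizing z with
  | _ n ih =>
    rcases h1.eq_or_lt with h3 | h3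
    · rw [h3]
    -- a component
    have hex : ∃ k : ℕ, ∃ z', (S.Cp A z z' ∧ z' ≠ A) ∧ (S.rk z' - S.rk A).toNat = k :=
      ⟨_, z, ⟨Cp_right h1, h3.ne'⟩, rfl⟩
    obtain ⟨z', ⟨hz'1, hz'2⟩, hk⟩ := Nat.find_spec hex
    have hmin : ∀ z1, S.Cp A z z1 → z1 ≠ A → z1 ≤ z' → z1 = z' := by
      intro z1 h4 h5 h6
      have h7 := Nat.find_min' hex ⟨z1, ⟨h4, h5⟩, rfl⟩
      rw [← hk] at h7
      by_contra hcon
      have h8 := S.rk_lt _ _ (lt_of_le_of_ne h6 hcon)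
      have h9 := rk_le _ _ h4.1
      omega
    have hCn : S.Cn A z' := by
      refine ⟨lt_of_le_of_ne hz'1.1 (Ne.symm hz'2), ?_⟩
      intro z1 h4
      by_cases h5 : z1 = A
      · exact Or.inl h5
      · exact Or.inr (hmin z1 (hz'1.trans h4) h5 h4.2.1)
    have hnW := hz z' hz'1 hCn
    have hokz : S.ok A z := S.ok_sub A B A z hok le_rfl h1 h2
    -- `w z' ≥ w A`
    have hw1 : S.w A ≤ S.w z' := by
      have hcard : (S.fr A \ S.fr z').card ≤ 1 := by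
        by_contra h4
        exact hnW (Or.inl (by omega))
      have c1 : (S.fr A \ S.fr z').card + (S.fr A ∩ S.fr z').card = (S.fr A).card :=
        Finset.card_sdiff_add_card_inter _ _
      have c2 : (S.fr z' \ S.fr A).card + (S.fr z' ∩ S.fr A).card = (S.fr z').card :=
        Finset.card_sdiff_add_card_inter _ _
      rw [Finset.inter_comm] at c2
      have h4 : (S.fr A \ S.fr z').card ≤ (S.fr z' \ S.fr A).card := by
        by_contra hcon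
        have h5 : (S.fr z' \ S.fr A).card = 0 := by omega
        have h6 : S.fr z' ⊆ S.fr A := by
          rw [Finset.card_eq_zero, Finset.sdiff_eq_empty_iff_subset] at h5
          exact h5
        have h7 : S.Cp A B z' := ⟨hz'1.1, hz'1.2.1.trans h2, h6.trans Finset.subset_union_left⟩
        rcases hc.2 z' h7 with h8 | h8
        · exact hz'2 h8
        · rw [h8] at hnW
          exact hnW hw
      unfold w
      omega
    obtain ⟨z'', g1, g2, g3, -, -, -, g4, -⟩ := S.Cp_compl hokz hz'1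
    have hlt : z'' < z := by
      refine lt_of_le_of_ne g1.2.1 ?_
      intro h4
      rw [h4, inf_eq_left.mpr hz'1.2.1] at g2
      exact hz'2 g2
    have h4 := ih ((S.rk z'' - S.rk A).toNat) (by
      have h5 := S.rk_lt _ _ hlt
      have h6 := rk_le _ _ g1.1
      omega) g1.1 (g1.2.1.trans h2) (fun u hu hu2 => hz u (g1.trans hu) hu2) rfl
    omega

theorem exists_cl_w {A B : X} {hv : Set C} (hok : S.ok A B) (hc : S.Cn A B) (hw : Wt hv (S.fr A \ S.fr B)) :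
    ∃ f : X → X, ∀ E, A ≤ E → E ≤ B → f E ≤ E ∧ S.PP A hv (f E) ∧ (∀ F, F ≤ E → S.PP A hv F → F ≤ f E) ∧
      S.w (f E) ≤ S.w E := by
  classical
  have key : ∀ E, ∃ G, A ≤ E → E ≤ B → G ≤ E ∧ S.PP A hv G ∧ (∀ F, F ≤ E → S.PP A hv F → F ≤ G) ∧
      S.w G ≤ S.w E := by
    intro E
    by_cases h : A ≤ E ∧ E ≤ B
    · have hokE : S.ok A E := S.ok_sub A B A E hok le_rfl h.1 h.2
      obtain ⟨G, h1, h2, h3, h4⟩ := S.exists_cl hv hokE h.1
      refine ⟨G, fun _ _ => ⟨h1.2.1, h2, h3, ?_⟩⟩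
      obtain ⟨z, g1, g2, g3, -, -, -, g4, -⟩ := S.Cp_compl hokE h1
      have h5 := S.thin_w hok hc hw g1.1 (g1.2.1.trans h.2) (h4 z g2 g3 g1)
      omega
    · exact ⟨E, fun h1 h2 => absurd ⟨h1, h2⟩ h⟩
  choose f hf using key
  exact ⟨f, fun E h1 h2 => hf E h1 h2⟩

theorem CL_ac {A B : X} {hv : Set C} (hok : S.ok A B) (hc : S.Cn A B) (hw : Wt hv (S.fr A \ S.fr B))
    (m : ℤ) (n : ℕ) :
    Ac (Po {E | A ≤ E ∧ E ≤ B ∧ m ≤ S.D A E ∧ S.PP A hv E}) n ↔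
      Ac (Po {E | A ≤ E ∧ E ≤ B ∧ m ≤ S.D A E}) n := by
  obtain ⟨f, hf⟩ := S.exists_cl_w hok hc hw
  have hmem : ∀ E ∈ {E | A ≤ E ∧ E ≤ B ∧ m ≤ S.D A E},
      f E ∈ {E | A ≤ E ∧ E ≤ B ∧ m ≤ S.D A E ∧ S.PP A hv E} := by
    rintro E ⟨h1, h2, h3⟩
    obtain ⟨h4, h5, h6, h7⟩ := hf E h1 h2
    refine ⟨h5.1, h4.trans h2, ?_, h5⟩
    unfold D at h3 ⊢
    omega
  have hmono : ∀ x ∈ {E | A ≤ E ∧ E ≤ B ∧ m ≤ S.D A E}, ∀ y ∈ {E | A ≤ E ∧ E ≤ B ∧ m ≤ S.D A E},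
      x ≤ y → f x ≤ f y := by
    rintro x ⟨h1, h2, -⟩ y ⟨h3, h4, -⟩ hxy
    exact (hf y h3 h4).2.2.1 _ ((hf x h1 h2).1.trans hxy) (hf x h1 h2).2.1
  constructor
  · intro h
    refine Ac_deform ?_ f hmem hmono ?_ h
    · rintro E ⟨h1, h2, h3, -⟩
      exact ⟨h1, h2, h3⟩
    · rintro E ⟨h1, h2, -⟩
      exact (hf E h1 h2).1
  · intro h
    refine Ac_retract (P := {E | A ≤ E ∧ E ≤ B ∧ m ≤ S.D A E}) f id hmem ?_ hmono ?_ ?_ h
    · rintro E ⟨h1, h2, h3, -⟩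
      exact ⟨h1, h2, h3⟩
    · intro x _ y _ hxy
      exact hxy
    · rintro E ⟨h1, h2, h3, h4⟩
      exact le_antisymm (hf E h1 h2).1 ((hf E h1 h2).2.2.1 E le_rfl h4)

end Slb
end TorT
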