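import Pool.Agent.Lib.MP_05cdf2_gt.T.Def

/-! MP_05cdf2_gt, stream T, job DL: the distributive lattices `Lam a e b`. (Compare A/CLam.lean: the proofs are the same.)

Let `ok a b`, `a ≤ e ≤ b`. `ind_md`: field `coh`. `Lam_sup`, `Lam_inf`: a curve of `x ⊔ y` has `ind = 1`, so by `ind_md` it is a curve of `x` or `y`.
`w_md`: `w x = ∑ c ∈ A, ind c x` for every finset `A ⊇ fr x`. `eq_of_ind`: `fr x = fr y`, field `inj`.
`dist_inf`: let `v = ind c`, `a' = x ⊓ (y ⊔ z)`, `b' = (x ⊓ y) ⊔ (x ⊓ z) ≤ a'`; `v a' = v b'` by the computation of A/CLam.lean (`dist_inf` there), so `eq_of_ind`.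
`dist_sup` follows formally as there.
`Cp_mem`: `Cp a b z` implies `z ∈ Lam a e b`.
`Cp_inf`: `z ⊓ e ∈ Lam a e b`; a curve of `z ⊓ e` in `fr b` is in `fr e` by `conv` (`z ⊓ e ≤ e ≤ b`). `Cp_sup`: a curve of `z ⊔ e` in `fr a` is in `fr e` by `conv`
(`a ≤ e ≤ z ⊔ e`).
`Cp_compl`: field `compl` for `a ≤ z ≤ b`; `z' ≥ z ⊓ z' = a`, `z' ≤ z ⊔ z' = b`, the frontier of `z'` is in `fr z ∪ fr z' = fr a ∪ fr b`; the formulas from `ind_md`,
`nf_md`, `w_md` for `z`, `z'` (`e = a`).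
`Cp_lat`: `Cp a b` is closed under `⊔`, `⊓` (`Lam a a b`). -/

set_option autoImplicit false

namespace TorT
open TorA
namespace Slb
variable {X C : Type} [Lattice X] [DecidableEq C] (S : Slb X C)

theorem eq_of_ind {x y : X} (h : x ≤ y) (hi : ∀ c, S.ind c x = S.ind c y) : x = y := by
  refine S.inj x y h ?_
  ext c
  rw [← S.ind_eq_one, ← S.ind_eq_one, hi c]

theorem ind_md {a e b x y : X} (h : S.ok a b) (h1 : a ≤ e) (h2 : e ≤ b) (hx : x ∈ S.Lam a e b)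
    (hy : y ∈ S.Lam a e b) (c : C) : S.ind c (x ⊔ y) + S.ind c (x ⊓ y) = S.ind c x + S.ind c y := by
  have h3 := S.coh a e b x y h h1 h2 hx.1 hx.2.1 hy.1 hy.2.1 hx.2.2 hy.2.2
  exact h3 c

theorem w_md {a e b x y : X} (h : S.ok a b) (h1 : a ≤ e) (h2 : e ≤ b) (hx : x ∈ S.Lam a e b)
    (hy : y ∈ S.Lam a e b) : S.w (x ⊔ y) + S.w (x ⊓ y) = S.w x + S.w y := by
  have hw : ∀ (z : X) (A : Finset C), S.fr z ⊆ A → S.w z = ∑ c ∈ A, S.ind c z := by
    intro z A hA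
    unfold w ind
    rw [← Finset.sum_filter, Finset.sum_const, nsmul_eq_mul, mul_one]
    congr 2
    ext c
    rw [Finset.mem_filter]
    exact ⟨fun h => ⟨hA h, h⟩, fun h => h.2⟩
  set A : Finset C := (S.fr (x ⊔ y) ∪ S.fr (x ⊓ y)) ∪ (S.fr x ∪ S.fr y) with hA
  have e1 := hw (x ⊔ y) A (fun c hc => by simp [hA, hc])
  have e2 := hw (x ⊓ y) A (fun c hc => by simp [hA, hc])
  have e3 := hw x A (fun c hc => by simp [hA, hc])
  have e4 := hw y A (fun c hc => by simp [hA, hc])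
  rw [e1, e2, e3, e4, ← Finset.sum_add_distrib, ← Finset.sum_add_distrib]
  refine Finset.sum_congr rfl ?_
  intro c _
  exact S.ind_md h h1 h2 hx hy c

theorem Lam_sup {a e b x y : X} (h : S.ok a b) (h1 : a ≤ e) (h2 : e ≤ b) (hx : x ∈ S.Lam a e b)
    (hy : y ∈ S.Lam a e b) : x ⊔ y ∈ S.Lam a e b := by
  refine ⟨hx.1.trans le_sup_left, sup_le hx.2.1 hy.2.1, ?_⟩
  intro c hc
  have k := S.ind_md h h1 h2 hx hy c
  have k1 : S.ind c (x ⊔ y) = 1 := ind_eq_one.mpr hc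
  have k2 := ind_nonneg (S := S) c (x ⊓ y)
  have k3 := ind_nonneg (S := S) c x
  have k4 := ind_nonneg (S := S) c y
  have k5 := ind_le_one (S := S) c x
  have k6 := ind_le_one (S := S) c y
  have k7 : S.ind c x = 1 ∨ S.ind c y = 1 := by omega
  rcases k7 with k7 | k7
  · exact hx.2.2 (ind_eq_one.mp k7)
  · exact hy.2.2 (ind_eq_one.mp k7)

theorem Lam_inf {a e b x y : X} (h : S.ok a b) (h1 : a ≤ e) (h2 : e ≤ b) (hx : x ∈ S.Lam a e b)
    (hy : y ∈ S.Lam a e b) : x ⊓ y ∈ S.Lam a e b := by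
  refine ⟨le_inf hx.1 hy.1, inf_le_left.trans hx.2.1, ?_⟩
  intro c hc
  have k := S.ind_md h h1 h2 hx hy c
  have k1 : S.ind c (x ⊓ y) = 1 := ind_eq_one.mpr hc
  have k2 := ind_nonneg (S := S) c (x ⊔ y)
  have k3 := ind_nonneg (S := S) c x
  have k4 := ind_nonneg (S := S) c y
  have k5 := ind_le_one (S := S) c x
  have k6 := ind_le_one (S := S) c y
  have k7 : S.ind c x = 1 ∨ S.ind c y = 1 := by omega
  rcases k7 with k7 | k7
  · exact hx.2.2 (ind_eq_one.mp k7)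
  · exact hy.2.2 (ind_eq_one.mp k7)

theorem dist_inf {a e b x y z : X} (h : S.ok a b) (h1 : a ≤ e) (h2 : e ≤ b) (hx : x ∈ S.Lam a e b)
    (hy : y ∈ S.Lam a e b) (hz : z ∈ S.Lam a e b) : x ⊓ (y ⊔ z) = (x ⊓ y) ⊔ (x ⊓ z) := by
  set u := x ⊓ (y ⊔ z) with hu
  set v := (x ⊓ y) ⊔ (x ⊓ z) with hv
  have hle : v ≤ u := by
    refine sup_le (le_inf inf_le_left (inf_le_right.trans le_sup_left))
      (le_inf inf_le_left (inf_le_right.trans le_sup_right))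
  refine (S.eq_of_ind hle ?_).symm
  intro c
  have m1 := S.Lam_sup h h1 h2 hy hz
  have m2 := S.Lam_inf h h1 h2 hx hy
  have m3 := S.Lam_inf h h1 h2 hx hz
  have m4 := S.Lam_inf h h1 h2 hy hz
  have m5 := S.Lam_sup h h1 h2 hx hy
  have m6 := S.Lam_sup h h1 h2 hx hz
  have mv : v ∈ S.Lam a e b := S.Lam_sup h h1 h2 m2 m3
  have mu : u ∈ S.Lam a e b := S.Lam_inf h h1 h2 hx m1
  have e1 := S.ind_md h h1 h2 hx m1 c
  have e2 := S.ind_md h h1 h2 hy hz c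
  have e3 := S.ind_md h h1 h2 m2 m3 c
  have e4 := S.ind_md h h1 h2 hx hy c
  have e5 := S.ind_md h h1 h2 hx hz c
  have s1 : (x ⊓ y) ⊓ (x ⊓ z) = x ⊓ (y ⊓ z) := by
    rw [← inf_inf_distrib_left]
  have s2 : v ⊓ (y ⊓ z) = x ⊓ (y ⊓ z) := by
    apply le_antisymm
    · exact le_inf ((inf_le_left.trans (sup_le inf_le_left inf_le_left))) inf_le_right
    · refine le_inf ?_ inf_le_right
      exact (le_inf inf_le_left (inf_le_right.trans inf_le_left)).trans le_sup_left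
  have e6 := S.ind_md h h1 h2 mv m4 c
  have mm := S.Lam_inf h h1 h2 m5 m6
  have e7 := S.ind_md h h1 h2 mm m1 c
  have e8 := S.ind_md h h1 h2 m5 m6 c
  have s3 : (x ⊔ y) ⊔ (x ⊔ z) = x ⊔ (y ⊔ z) := by
    rw [← sup_sup_distrib_left]
  have s4 : ((x ⊔ y) ⊓ (x ⊔ z)) ⊔ (y ⊔ z) = x ⊔ (y ⊔ z) := by
    apply le_antisymm
    · refine sup_le ?_ le_sup_right
      exact inf_le_left.trans (sup_le le_sup_left (le_sup_left.trans le_sup_right))
    · exact sup_le ((le_inf le_sup_left le_sup_left).trans le_sup_left) le_sup_right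
  rw [s1] at e3
  rw [s2] at e6
  rw [s4] at e7
  rw [s3] at e8
  have n1 := ind_nonneg (S := S) c (v ⊔ (y ⊓ z))
  have n2 := ind_le_one (S := S) c (v ⊔ (y ⊓ z))
  have n3 := ind_nonneg (S := S) c (((x ⊔ y) ⊓ (x ⊔ z)) ⊓ (y ⊔ z))
  have n4 := ind_le_one (S := S) c (((x ⊔ y) ⊓ (x ⊔ z)) ⊓ (y ⊔ z))
  rw [← hu] at e1
  rw [← hv] at e3
  omega

theorem dist_sup {a e b x y z : X} (h : S.ok a b) (h1 : a ≤ e) (h2 : e ≤ b) (hx : x ∈ S.Lam a e b)
    (hy : y ∈ S.Lam a e b) (hz : z ∈ S.Lam a e b) : x ⊔ (y ⊓ z) = (x ⊔ y) ⊓ (x ⊔ z) := by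
  have hxy := S.Lam_sup h h1 h2 hx hy
  rw [S.dist_inf h h1 h2 hxy hx hz, inf_comm (x ⊔ y) x, inf_sup_self, inf_comm (x ⊔ y) z,
    S.dist_inf h h1 h2 hz hx hy]
  apply le_antisymm
  · refine sup_le le_sup_left ?_
    exact (le_inf (inf_le_right) inf_le_left).trans (le_sup_right.trans le_sup_right)
  · refine sup_le le_sup_left (sup_le ?_ ?_)
    · exact inf_le_right.trans le_sup_left
    · exact (le_inf inf_le_right inf_le_left).trans le_sup_right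

theorem Cp_mem {a e b z : X} (h1 : a ≤ e) (h2 : e ≤ b) (hz : S.Cp a b z) : z ∈ S.Lam a e b := by
  refine ⟨hz.1, hz.2.1, fun c hc => ?_⟩
  have h3 := hz.2.2 hc
  rw [Finset.mem_union] at h3
  rw [Finset.mem_union, Finset.mem_union]
  tauto

theorem mem_Lam {a e b : X} (h1 : a ≤ e) (h2 : e ≤ b) : a ∈ S.Lam a e b ∧ e ∈ S.Lam a e b ∧ b ∈ S.Lam a e b := by
  refine ⟨⟨le_rfl, h1.trans h2, fun c hc => ?_⟩, ⟨h1, h2, fun c hc => ?_⟩,
    ⟨h1.trans h2, le_rfl, fun c hc => ?_⟩⟩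
  · rw [Finset.mem_union, Finset.mem_union]
    tauto
  · rw [Finset.mem_union, Finset.mem_union]
    tauto
  · rw [Finset.mem_union, Finset.mem_union]
    tauto

theorem Cp_inf {a e b z : X} (h : S.ok a b) (h1 : a ≤ e) (h2 : e ≤ b) (hz : S.Cp a b z) : S.Cp a e (z ⊓ e) := by
  have k := S.Lam_inf h h1 h2 (S.Cp_mem h1 h2 hz) (S.mem_Lam h1 h2).2.1
  refine ⟨k.1, inf_le_right, fun c hc => ?_⟩
  have k1 := k.2.2 hc
  rw [Finset.mem_union, Finset.mem_union] at k1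
  rw [Finset.mem_union]
  rcases k1 with (k1 | k1) | k1
  · exact Or.inl k1
  · exact Or.inr k1
  · exact Or.inr (S.conv (z ⊓ e) e b c inf_le_right h2 hc k1)

theorem Cp_sup {a e b z : X} (h : S.ok a b) (h1 : a ≤ e) (h2 : e ≤ b) (hz : S.Cp a b z) : S.Cp e b (z ⊔ e) := by
  have k := S.Lam_sup h h1 h2 (S.Cp_mem h1 h2 hz) (S.mem_Lam h1 h2).2.1
  refine ⟨le_sup_right, k.2.1, fun c hc => ?_⟩
  have k1 := k.2.2 hc
  rw [Finset.mem_union, Finset.mem_union] at k1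
  rw [Finset.mem_union]
  rcases k1 with (k1 | k1) | k1
  · exact Or.inl (S.conv a e (z ⊔ e) c h1 le_sup_right k1 hc)
  · exact Or.inl k1
  · exact Or.inr k1

theorem Cp_lat {a b x y : X} (h : S.ok a b) (hx : S.Cp a b x) (hy : S.Cp a b y) :
    S.Cp a b (x ⊔ y) ∧ S.Cp a b (x ⊓ y) := by
  have h1 : a ≤ a := le_rfl
  have h2 : a ≤ b := hx.1.trans hx.2.1
  have k1 := S.Lam_sup h h1 h2 (S.Cp_mem h1 h2 hx) (S.Cp_mem h1 h2 hy)
  have k2 := S.Lam_inf h h1 h2 (S.Cp_mem h1 h2 hx) (S.Cp_mem h1 h2 hy)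
  refine ⟨⟨k1.1, k1.2.1, fun c hc => ?_⟩, ⟨k2.1, k2.2.1, fun c hc => ?_⟩⟩
  · have k3 := k1.2.2 hc
    rw [Finset.union_self] at k3
    exact k3
  · have k3 := k2.2.2 hc
    rw [Finset.union_self] at k3
    exact k3

theorem Cp_compl {a b z : X} (h : S.ok a b) (hz : S.Cp a b z) :
    ∃ z', S.Cp a b z' ∧ z ⊓ z' = a ∧ z ⊔ z' = b ∧ S.fr z ∪ S.fr z' = S.fr a ∪ S.fr b ∧
      S.fr z ∩ S.fr z' = S.fr a ∩ S.fr b ∧ (∀ c, S.ind c z + S.ind c z' = S.ind c a + S.ind c b) ∧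
      S.w z + S.w z' = S.w a + S.w b ∧ True := by
  obtain ⟨z', k1, k2, k3, k4⟩ := S.compl a z b h hz.1 hz.2.1 hz.2.2
  have h2 : a ≤ b := hz.1.trans hz.2.1
  have hz' : S.Cp a b z' := by
    refine ⟨?_, ?_, fun c hc => ?_⟩
    · rw [← k1]
      exact inf_le_right
    · rw [← k2]
      exact le_sup_right
    · rw [← k3]
      exact Finset.mem_union_right _ hc
  have m1 := S.Cp_mem (le_refl a) h2 hz
  have m2 := S.Cp_mem (le_refl a) h2 hz'
  refine ⟨z', hz', k1, k2, k3, k4, fun c => ?_, ?_, ?_⟩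
  · have k5 := S.ind_md h (le_refl a) h2 m1 m2 c
    rw [k1, k2] at k5
    linarith
  · have k5 := S.w_md h (le_refl a) h2 m1 m2
    rw [k1, k2] at k5
    linarith
  · trivial

end Slb
end TorT
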