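import Mathlib
import Pool.Agent.Lib.MP_05cdf2_gt.A.TRank
import Pool.Agent.Lib.MP_05cdf2_gt.A.TRel
import Pool.Agent.Lib.MP_05cdf2_gt.A.TJoin
import Pool.Agent.Lib.MP_05cdf2_gt.A.TRet

/-! MP_05cdf2_gt, stream T (helper6): the T-argument as an abstract lattice theorem. Definitions.

`Slb X C`: a lattice `X` of regions, curves `C`, `fr x` = frontier of `x`, `nu a b` = the number of the slab `[a,b]` (subadditive), `rk` = area, `ok a b` = the interval `[a,b]` is
small enough (in the application `b ≤ t a`). `ind c x = 1` iff `c ∈ fr x`. `w x` = number of frontier curves. `D A E = w A - w E`.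
`Cp A E z`: `z` is a union of components of `E - A`. `Cn A B`: `B - A` is connected (and not empty). `Wt hv s`: `s` has two elements or meets
the set `hv` of heavy curves. `PP A hv E`: every component of `E - A` has weight at least two. `hvs A hv`: the new heavy set (all curves outside
`fr A` are heavy). `Lam a e b`: the elements of `[a,b]` with frontier in `fr a ∪ fr e ∪ fr b`.
`ArcS A B hv`: the arc systems over `A` in `B`. -/

set_option autoImplicit false

namespace TorT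
open TorA

/-- the lattice of regions -/
structure Slb (X C : Type) [Lattice X] [DecidableEq C] where
  /-- small intervals -/
  ok : X → X → Prop
  /-- the frontier curves -/
  fr : X → Finset C
  /-- the genus number of a slab -/
  nu : X → X → ℤ
  /-- the area -/
  rk : X → ℤ
  ok_sub : ∀ a b a' b', ok a b → a ≤ a' → a' ≤ b' → b' ≤ b → ok a' b'
  rk_lt : ∀ x y, x < y → rk x < rk y
  inj : ∀ x y, x ≤ y → fr x = fr y → x = y
  conv : ∀ x z y c, x ≤ z → z ≤ y → c ∈ fr x → c ∈ fr y → c ∈ fr z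
  compl : ∀ x y y', ok x y' → x ≤ y → y ≤ y' → fr y ⊆ fr x ∪ fr y' →
    ∃ z, y ⊓ z = x ∧ y ⊔ z = y' ∧ fr y ∪ fr z = fr x ∪ fr y' ∧ fr y ∩ fr z = fr x ∩ fr y'
  coh : ∀ a e b x y, ok a b → a ≤ e → e ≤ b → a ≤ x → x ≤ b → a ≤ y → y ≤ b →
    fr x ⊆ fr a ∪ fr e ∪ fr b → fr y ⊆ fr a ∪ fr e ∪ fr b →
    ∀ c, ((if c ∈ fr (x ⊔ y) then 1 else 0) + (if c ∈ fr (x ⊓ y) then 1 else 0) : ℤ) =
      (if c ∈ fr x then 1 else 0) + (if c ∈ fr y then 1 else 0)
  nu_sub : ∀ a e b, ok a b → a ≤ e → e ≤ b → nu a b ≤ nu a e + nu e b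
  nu_self : ∀ a, nu a a ≤ 0

/-- weight at least two -/
def Wt {C : Type} (hv : Set C) (s : Finset C) : Prop := 2 ≤ s.card ∨ ∃ c ∈ s, c ∈ hv

theorem Wt.mono {C : Type} {hv hv' : Set C} {s s' : Finset C} (h : Wt hv s) (h1 : s ⊆ s')
    (h2 : ∀ c ∈ s, c ∈ hv → c ∈ hv') : Wt hv' s' := by
  rcases h with h | ⟨c, hc, hc2⟩
  · exact Or.inl (h.trans (Finset.card_le_card h1))
  · exact Or.inr ⟨c, h1 hc, h2 c hc hc2⟩

theorem Wt.ne {C : Type} {hv : Set C} {s : Finset C} (h : Wt hv s) : s.Nonempty := by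
  rcases h with h | ⟨c, hc, -⟩
  · exact Finset.card_pos.1 (by omega)
  · exact ⟨c, hc⟩

namespace Slb
variable {X C : Type} [Lattice X] [DecidableEq C] (S : Slb X C)

/-- indicator of `c ∈ fr x` -/
def ind (c : C) (x : X) : ℤ := if c ∈ S.fr x then 1 else 0

/-- number of frontier curves -/
def w (x : X) : ℤ := (S.fr x).card

/-- loss of frontier curves -/
def D (A E : X) : ℤ := S.w A - S.w E

/-- unions of components of `E - A` -/
def Cp (A E z : X) : Prop := A ≤ z ∧ z ≤ E ∧ S.fr z ⊆ S.fr A ∪ S.fr E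

/-- `B - A` is connected -/
def Cn (A B : X) : Prop := A < B ∧ ∀ z, S.Cp A B z → z = A ∨ z = B

/-- every component of `E - A` has weight at least two -/
def PP (A : X) (hv : Set C) (E : X) : Prop :=
  A ≤ E ∧ ∀ z, S.Cp A E z → z = A ∨ Wt hv (S.fr A \ S.fr z)

/-- the new heavy curves -/
def hvs (A : X) (hv : Set C) : Set C := {c | c ∈ hv ∨ c ∉ S.fr A}

/-- elements of `[a,b]` with frontier in `fr a ∪ fr e ∪ fr b` -/
def Lam (a e b : X) : Set X := {x | a ≤ x ∧ x ≤ b ∧ S.fr x ⊆ S.fr a ∪ S.fr e ∪ S.fr b}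

/-- the arc systems over `A` in `B` -/
structure ArcS (A B : X) (hv : Set C) where
  /-- the type of systems -/
  T : Type
  /-- inclusion -/
  [po : PartialOrder T]
  /-- the hull -/
  hu : T → X
  /-- the number of arcs -/
  sz : T → ℕ
  mono : ∀ s t, s ≤ t → hu s ≤ hu t
  sz_lt : ∀ s t, s < t → sz s < sz t
  sz_pos : ∀ t, 1 ≤ sz t
  below : ∀ t, Ac (Po {s | s < t}) (sz t - 1)
  ac : ∀ E, A < E → E ≤ B → S.PP A hv E → Ac (Po {t | hu t ≤ E}) (S.nu A E).toNat
  lt : ∀ t, A < hu t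
  le : ∀ t, hu t ≤ B
  pp : ∀ t, S.PP A hv (hu t)
  num : ∀ t, S.nu A B ≤ S.nu (hu t) B + ((sz t : ℤ) + S.D A (hu t))
  light : (∀ c ∈ S.fr A, c ∉ hv) → ∀ t, S.nu A B + 1 ≤ S.nu (hu t) B + ((sz t : ℤ) + S.D A (hu t))
  top : ∀ t, hu t = B ∨ (S.Cn (hu t) B ∧ S.fr (hu t) ∩ S.fr B = S.fr A ∩ S.fr B)

/-- the input from arc complexes -/
def HN : Prop := ∀ (A B : X) (hv : Set C), S.ok A B → S.Cn A B → 1 ≤ (S.fr B \ S.fr A).card →
  Wt hv (S.fr A \ S.fr B) → Nonempty (S.ArcS A B hv)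

variable {S}

theorem ind_eq_one {c : C} {x : X} : S.ind c x = 1 ↔ c ∈ S.fr x := by
  unfold ind; split_ifs <;> simp_all

theorem ind_eq_zero {c : C} {x : X} : S.ind c x = 0 ↔ c ∉ S.fr x := by
  unfold ind; split_ifs <;> simp_all

theorem ind_nonneg (c : C) (x : X) : 0 ≤ S.ind c x := by unfold ind; split_ifs <;> simp

theorem ind_le_one (c : C) (x : X) : S.ind c x ≤ 1 := by unfold ind; split_ifs <;> simp

theorem D_add (A E E' : X) : S.D A E' = S.D A E + S.D E E' := by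
  unfold D; ring

theorem D_self (A : X) : S.D A A = 0 := by
  unfold D; ring

theorem Cp_left {A E : X} (h : A ≤ E) : S.Cp A E A := ⟨le_rfl, h, Finset.subset_union_left⟩

theorem Cp_right {A E : X} (h : A ≤ E) : S.Cp A E E := ⟨h, le_rfl, Finset.subset_union_right⟩

theorem Cp.trans {A E z z' : X} (h : S.Cp A E z) (h' : S.Cp A z z') : S.Cp A E z' := by
  refine ⟨h'.1, h'.2.1.trans h.2.1, fun c hc => ?_⟩
  have h1 := h'.2.2 hc
  rw [Finset.mem_union] at h1
  rcases h1 with h1 | h1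
  · exact Finset.mem_union_left _ h1
  · exact h.2.2 h1

theorem PP_self (A : X) (hv : Set C) : S.PP A hv A :=
  ⟨le_rfl, fun _ hz => Or.inl (le_antisymm hz.2.1 hz.1)⟩

/-- the bottoms of a smaller region -/
theorem bot_mono {A z z' : X} (h : A ≤ z) (h' : z ≤ z') : S.fr A \ S.fr z ⊆ S.fr A \ S.fr z' := by
  intro c hc
  rw [Finset.mem_sdiff] at hc ⊢
  exact ⟨hc.1, fun h1 => hc.2 (S.conv A z z' c h h' hc.1 h1)⟩

theorem PP.sub {A E z : X} {hv : Set C} (h : S.PP A hv E) (hz : S.Cp A E z) : S.PP A hv z :=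
  ⟨hz.1, fun z' hz' => h.2 z' (hz.trans hz')⟩

theorem Cn.pp {A B : X} {hv : Set C} (h : S.Cn A B) (h' : Wt hv (S.fr A \ S.fr B)) : S.PP A hv B := by
  refine ⟨h.1.le, fun z hz => ?_⟩
  rcases h.2 z hz with h1 | h1
  · exact Or.inl h1
  · rw [h1]
    exact Or.inr h'

end Slb

end TorT
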