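import Pool.Agent.Lib.MP_05cdf2_gt.T.Def
import Pool.Agent.Lib.MP_05cdf2_gt.A.RPL

/-! MP_05cdf2_gt, stream T, job PLB: the product lemma, from helper49's `pl`. -/

set_option autoImplicit false

namespace TorT
open TorA

theorem PLB {α β : Type} [PartialOrder α] [PartialOrder β] (P : Set α) (Q : Set β) (a0 : α) (b0 : β)
    (ha : a0 ∈ P) (ha' : ∀ x ∈ P, a0 ≤ x) (hb : b0 ∈ Q) (hb' : ∀ y ∈ Q, b0 ≤ y)
    (s1 : α → ℤ) (s2 : β → ℤ) (r1 r2 : ℤ) (hs1 : ∀ x ∈ P, ∀ x' ∈ P, x < x' → s1 x < s1 x')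
    (hs2 : ∀ y ∈ Q, ∀ y' ∈ Q, y < y' → s2 y < s2 y') (hr1 : ∀ x ∈ P, s1 x ≤ r1) (hr2 : ∀ y ∈ Q, s2 y ≤ r2)
    (D1 : α → ℤ) (D2 : β → ℤ) (hD1 : D1 a0 = 0) (hD2 : D2 b0 = 0)
    (c1 : ℤ) (hc1 : ∀ x ∈ P, D1 x ≤ c1) {n1 n2 : ℕ}
    (h1 : ∀ m : ℤ, m ≤ 0 → Ac (Po {x | x ∈ P ∧ x ≠ a0 ∧ m ≤ D1 x}) n1)
    (h2 : Ac (Po {y | y ∈ Q ∧ y ≠ b0 ∧ 0 ≤ D2 y}) n2)
    (h3 : ∀ y ∈ Q, y ≠ b0 → D2 y < 0 → ∃ u v, n2 ≤ u + v ∧
      Ac (Po {y' | y' ∈ Q ∧ y' ≠ b0 ∧ y' < y ∧ D2 y + 1 ≤ D2 y'}) u ∧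
      Ac (Po {y' | y' ∈ Q ∧ y < y' ∧ D2 y ≤ D2 y'}) v)
    (m : ℤ) (hm : m ≤ 0) :
    Ac (Po {z : α × β | z.1 ∈ P ∧ z.2 ∈ Q ∧ z ≠ (a0, b0) ∧ m ≤ D1 z.1 + D2 z.2}) (n1 + n2) := by
  have key := pl (P := {x | x ∈ P ∧ x ≠ a0}) (Q := {y | y ∈ Q ∧ y ≠ b0}) a0 b0
    (fun x hx => lt_of_le_of_ne (ha' x hx.1) (Ne.symm hx.2))
    (fun y hy => lt_of_le_of_ne (hb' y hy.1) (Ne.symm hy.2)) D1 D2 hD1 hD2
    (fun x => (r1 - s1 x).toNat) (fun y => (r2 - s2 y).toNat)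
    (fun x x' hx hx' hxx => by
      have hxP : x ∈ P := by
        rcases hx with h | h
        · rw [h]; exact ha
        · exact h.1
      have e1 := hs1 x hxP x' hx'.1 hxx
      have e2 := hr1 x' hx'.1
      show (r1 - s1 x').toNat < (r1 - s1 x).toNat
      omega)
    (fun y y' hy hy' hyy => by
      have hyQ : y ∈ Q := by
        rcases hy with h | h
        · rw [h]; exact hb
        · exact h.1
      have e1 := hs2 y hyQ y' hy'.1 hyy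
      have e2 := hr2 y' hy'.1
      show (r2 - s2 y').toNat < (r2 - s2 y).toNat
      omega)
    c1 (fun x hx => hc1 x hx.1) (a := n1) (b := n2)
    (fun m hm => by
      have e : {x | x ∈ {x | x ∈ P ∧ x ≠ a0} ∧ m ≤ D1 x} = {x | x ∈ P ∧ x ≠ a0 ∧ m ≤ D1 x} := by
        ext x
        exact and_assoc
      rw [e]
      exact h1 m hm)
    (by
      have e : {y | y ∈ {y | y ∈ Q ∧ y ≠ b0} ∧ 0 ≤ D2 y} = {y | y ∈ Q ∧ y ≠ b0 ∧ 0 ≤ D2 y} := by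
        ext y
        exact and_assoc
      rw [e]
      exact h2)
    (fun y hy hd => by
      obtain ⟨u, v, e1, e2, e3⟩ := h3 y hy.1 hy.2 hd
      refine ⟨u, v, ?_, ?_, e1⟩
      · have e : {y' | y' ∈ {y | y ∈ Q ∧ y ≠ b0} ∧ y' < y ∧ D2 y < D2 y'} =
            {y' | y' ∈ Q ∧ y' ≠ b0 ∧ y' < y ∧ D2 y + 1 ≤ D2 y'} := by
          ext z
          exact and_assoc
        rw [e]
        exact e2
      · have e : {y' | y' ∈ {y | y ∈ Q ∧ y ≠ b0} ∧ y < y' ∧ D2 y ≤ D2 y'} =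
            {y' | y' ∈ Q ∧ y < y' ∧ D2 y ≤ D2 y'} := by
          ext z
          constructor
          · rintro ⟨h4, h5, h6⟩
            exact ⟨h4.1, h5, h6⟩
          · rintro ⟨h4, h5, h6⟩
            refine ⟨⟨h4, ?_⟩, h5, h6⟩
            rintro rfl
            exact absurd (h5.trans_le (hb' y hy.1)) (lt_irrefl _)
        rw [e]
        exact e3)
    m hm
  have e : PrD {x | x ∈ P ∧ x ≠ a0} {y | y ∈ Q ∧ y ≠ b0} a0 b0 D1 D2 m =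
      {z : α × β | z.1 ∈ P ∧ z.2 ∈ Q ∧ z ≠ (a0, b0) ∧ m ≤ D1 z.1 + D2 z.2} := by
    ext z
    constructor
    · rintro ⟨h4, h5, h6⟩
      refine ⟨?_, ?_, h6⟩
      · rcases h4 with h | h
        · rw [h]; exact ha
        · exact h.1
      · rcases h5 with h | h
        · rw [h]; exact hb
        · exact h.1
    · rintro ⟨h4, h5, h6⟩
      refine ⟨?_, ?_, h6⟩
      · by_cases h : z.1 = a0
        · exact Or.inl h
        · exact Or.inr ⟨h4, h⟩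
      · by_cases h : z.2 = b0
        · exact Or.inl h
        · exact Or.inr ⟨h5, h⟩
  rw [e] at key
  exact key

end TorT
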