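import Pool.Agent.Lib.MP_05cdf2_gt.T.PT

/-! MP_05cdf2_gt, stream T, job PR: product decomposition of `[A,B]` along two complementary unions of components `z1`, `z2`.

`PR_sup`: `A ≤ E ≤ B`: `E = E ⊓ B = E ⊓ (z1 ⊔ z2) = (E ⊓ z1) ⊔ (E ⊓ z2)` (`dist_inf` in `Lam A E B`).
`PR_inf`: `A ≤ x ≤ z1`, `A ≤ y ≤ z2`: `(x ⊔ y) ⊓ z1 ≤ (x ⊔ z2) ⊓ z1 = (x ⊓ z1) ⊔ (z2 ⊓ z1) = x ⊔ A = x` (`dist_inf` in `Lam A x B`, commute), and `≥ x`.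
`PR_D`: let `E = x ⊔ y`; `x = E ⊓ z1`, `y = E ⊓ z2` are in `Lam A E B` (`Lam_inf`), `x ⊓ y = A` (`≤ z1 ⊓ z2 = A`); `w_md`: `w E + w A = w x + w y`.
`PR_PP`: `→`: `x = E ⊓ z1 = z1 ⊓ E` has `Cp A E x` (`Cp_inf` for `z1`), `PP.sub`; the same for `y`. `←`: `PP_sup`.
`PR_nf`: `nf_md` for `z1`, `z2` in `Lam A A B`. -/

set_option autoImplicit false

namespace TorT
open TorA
namespace Slb
variable {X C : Type} [Lattice X] [DecidableEq C] (S : Slb X C)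

theorem PR_sup {A B z1 z2 E : X} (hok : S.ok A B) (h1 : S.Cp A B z1) (h2 : S.Cp A B z2)
    (hs : z1 ⊔ z2 = B) (hA : A ≤ E) (hB : E ≤ B) : (E ⊓ z1) ⊔ (E ⊓ z2) = E := by
  rw [← S.dist_inf hok hA hB (S.mem_Lam hA hB).2.1 (S.Cp_mem hA hB h1) (S.Cp_mem hA hB h2), hs,
    inf_eq_left.2 hB]

theorem PR_inf_aux {A B z1 z2 x y : X} (hok : S.ok A B) (h1 : S.Cp A B z1) (h2 : S.Cp A B z2)
    (hi : z1 ⊓ z2 = A) (hx : A ≤ x) (hx1 : x ≤ z1) (hy1 : y ≤ z2) :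
    (x ⊔ y) ⊓ z1 = x := by
  have hxB : x ≤ B := hx1.trans h1.2.1
  apply le_antisymm
  · have e1 : z1 ⊓ (x ⊔ z2) = (z1 ⊓ x) ⊔ (z1 ⊓ z2) :=
      S.dist_inf hok hx hxB (S.Cp_mem hx hxB h1) (S.mem_Lam hx hxB).2.1 (S.Cp_mem hx hxB h2)
    rw [hi, inf_eq_right.2 hx1, sup_eq_left.2 hx] at e1
    calc (x ⊔ y) ⊓ z1 ≤ (x ⊔ z2) ⊓ z1 := inf_le_inf_right z1 (sup_le_sup_left hy1 x)
      _ = z1 ⊓ (x ⊔ z2) := inf_comm _ _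
      _ = x := e1
  · exact le_inf le_sup_left hx1

theorem PR_inf {A B z1 z2 x y : X} (hok : S.ok A B) (h1 : S.Cp A B z1) (h2 : S.Cp A B z2)
    (hi : z1 ⊓ z2 = A) (hx : A ≤ x) (hx1 : x ≤ z1) (hy : A ≤ y) (hy1 : y ≤ z2) :
    (x ⊔ y) ⊓ z1 = x ∧ (x ⊔ y) ⊓ z2 = y := by
  refine ⟨S.PR_inf_aux hok h1 h2 hi hx hx1 hy1, ?_⟩
  rw [sup_comm]
  exact S.PR_inf_aux hok h2 h1 (by rw [inf_comm]; exact hi) hy hy1 hx1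

theorem PR_D {A B z1 z2 x y : X} (hok : S.ok A B) (h1 : S.Cp A B z1) (h2 : S.Cp A B z2)
    (hi : z1 ⊓ z2 = A) (hx : A ≤ x) (hx1 : x ≤ z1) (hy : A ≤ y) (hy1 : y ≤ z2) :
    S.D A (x ⊔ y) = S.D A x + S.D A y := by
  have hE : A ≤ x ⊔ y := hx.trans le_sup_left
  have hEB : x ⊔ y ≤ B := sup_le (hx1.trans h1.2.1) (hy1.trans h2.2.1)
  obtain ⟨e1, e2⟩ := S.PR_inf hok h1 h2 hi hx hx1 hy hy1
  have m1 := S.Lam_inf hok hE hEB (S.mem_Lam hE hEB).2.1 (S.Cp_mem hE hEB h1)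
  have m2 := S.Lam_inf hok hE hEB (S.mem_Lam hE hEB).2.1 (S.Cp_mem hE hEB h2)
  rw [e1] at m1
  rw [e2] at m2
  have e3 : x ⊓ y = A := le_antisymm ((inf_le_inf hx1 hy1).trans (le_of_eq hi)) (le_inf hx hy)
  have e4 := S.w_md hok hE hEB m1 m2
  rw [e3] at e4
  unfold D
  linarith

theorem PR_PP {A B z1 z2 x y : X} {hv : Set C} (hok : S.ok A B) (h1 : S.Cp A B z1) (h2 : S.Cp A B z2)
    (hi : z1 ⊓ z2 = A) (hx : A ≤ x) (hx1 : x ≤ z1) (hy : A ≤ y) (hy1 : y ≤ z2) :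
    S.PP A hv (x ⊔ y) ↔ (S.PP A hv x ∧ S.PP A hv y) := by
  have hE : A ≤ x ⊔ y := hx.trans le_sup_left
  have hEB : x ⊔ y ≤ B := sup_le (hx1.trans h1.2.1) (hy1.trans h2.2.1)
  obtain ⟨e1, e2⟩ := S.PR_inf hok h1 h2 hi hx hx1 hy hy1
  constructor
  · intro h
    have c1 := S.Cp_inf hok hE hEB h1
    have c2 := S.Cp_inf hok hE hEB h2
    rw [inf_comm, e1] at c1
    rw [inf_comm, e2] at c2
    exact ⟨h.sub c1, h.sub c2⟩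
  · rintro ⟨h3, h4⟩
    exact S.PP_sup (S.ok_sub _ _ _ _ hok le_rfl hE hEB) h3 h4

end Slb
end TorT
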