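import Pool.Agent.Lib.MP_05cdf2_gt.T.SepA
import Pool.Agent.Lib.MP_05cdf2_gt.T.TA
import Pool.Agent.Lib.MP_05cdf2_gt.T.CL
import Pool.Agent.Lib.MP_05cdf2_gt.T.PR
import Pool.Agent.Lib.MP_05cdf2_gt.T.PLB

/-! MP_05cdf2_gt, stream T, jobs MainA, MainB, MainC: the statements (I) and (II). -/

set_option autoImplicit false

namespace TorT
open TorA
namespace Slb
variable {X C : Type} [Lattice X] [DecidableEq C] (S : Slb X C)

/-- statement (I) for `[A,B]` -/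
def StI (A B : X) : Prop := ∀ m : ℤ, S.ok A B → S.Cn A B → 1 ≤ m → m ≤ ((S.fr A \ S.fr B).card : ℤ) - 1 →
  S.D A B < m → Ac (Po {E | A ≤ E ∧ E ≤ B ∧ m ≤ S.D A E}) (S.nu A B - m + 1).toNat

/-- statement (II) for `[A,B]` -/
def StII (A B : X) : Prop := ∀ (m : ℤ) (hv : Set C), S.ok A B → S.PP A hv B → m ≤ 0 →
  Ac (Po {E | A < E ∧ E ≤ B ∧ S.PP A hv E ∧ m ≤ S.D A E}) (S.nu A B).toNat

/-- the statements for smaller intervals -/
def Sm (A B : X) : Prop := ∀ A' B', A ≤ A' → B' ≤ B → A' ≤ B' → S.rk B' - S.rk A' < S.rk B - S.rk A →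
  S.StI A' B' ∧ S.StII A' B'

end Slb
end TorT
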