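import Pool.Agent.Lib.MP_05cdf2_gt.T.Main

/-! MP_05cdf2_gt, stream T, job MainA: (I) and the connected case of (II) from smaller intervals.

Common part. Let `ok A B`, `Cn A B`, `Wt hv (fr A \ fr B)`, `D A B < m`, `m ≤ p - 1` where `p = card (fr A \ fr B)`, `N = nf B - nf A`,
`P = {E | A < E ∧ E ≤ B ∧ PP A hv E ∧ m ≤ D A E}`. There is a top: `card (fr B \ fr A) = p - D A B > p - m ≥ 1` (`card_bot`, `card_top`). Take the `ArcS A B hv` from `HN` and apply `TA`
with `rk`, `R = rk B`, `n`, where either (i) `hv = ∅`, `1 ≤ m`, `n = (N - m + 1).toNat`, or (ii) `m ≤ 0`, `n = N.toNat`.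
(h3) field `ac` for `E = B` (`Cn.pp`), field `le`: `Ac N.toNat`, `n ≤ N.toNat`.
(h1) `E ∈ P`: field `ac`: `a = (nf E - nf A).toNat`. `{E' ∈ P | E < E'} = {E' | E < E' ∧ E' ≤ B ∧ PP E (hvs A hv) E' ∧ m - D A E ≤ D E E'}` by `PP_iff` (`ok A E'` by `ok_sub`) and `D_add`; `StII E B` from `Sm` (`rk A < rk E`, so
`E ≤ B`; `PP E (hvs A hv) B` by `PP_iff` and `Cn.pp`; `m - D A E ≤ 0`): `b = (nf B - nf E).toNat`. `a + b ≥ N`, `n ≤ N.toNat ≤ a + b + 1`.
(h2) `t`, `H = hu t`: `a = sz t - 1` (field `below`), `sz t = 2 (nf H - nf A) - D A H`.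
 * `m ≤ D A H`: `H ∈ P` is the least element of `{E ∈ P | H ≤ E}` (fields `lt`, `le`, `pp`): `AcI_of_min`, `b = n`.
 * `D A H < m`, `H = B`: `b = 0`. (i): `N ≥ 1` (field `light`): `sz t - 1 = 2N - D A B - 1 ≥ N - m + 1` because `D A B ≤ m - 1`. (ii): `N ≥ 0` (`nonneg`), `D A B ≤ m - 1 ≤ -1`: `2N - D A B - 1 ≥ N`.
 * `D A H < m`, `Cn H B`, `fr H ∩ fr B = fr A ∩ fr B` (field `top`): let `m' = m - D A H ≥ 1`; `{E ∈ P | H ≤ E} = {E | H ≤ E ∧ E ≤ B ∧ m' ≤ D H E ∧ PP H (hvs A hv) E}` (`PP_iff` with base `H`, field `pp`; `A < H ≤ E`). `StI H B` from `Sm` for `m'`: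
   `m' ≤ card (fr H \ fr B) - 1`: `card (fr H \ fr B) = w H - card (fr A ∩ fr B)`, `card (fr A \ fr B) = w A - card (fr A ∩ fr B)`, `m ≤ p - 1`; `D H B = D A B - D A H < m'`. It gives `Ac` for all `E`, and
   `CL_ac` (for `H`, `B`, `hvs A hv`, `m'`; `Wt (hvs A hv) (fr H \ fr B)` because `2 ≤ card` by `1 ≤ m' ≤ card - 1`) the version with `PP`: `b = (nf B - nf H - m' + 1).toNat`. `a + b ≥ 2 (nf H - nf A) - D A H - 1 + nf B - nf H - m + D A H + 1 = N + (nf H - nf A) - m`,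
   `≥ N - m + 1` in case (i) (field `light`), `≥ N` in case (ii) (field `nonneg`, `m ≤ 0`).
`MainI`: case (i): `Wt ∅ (fr A \ fr B)` since `p ≥ 2`; `P = {E | A ≤ E ∧ E ≤ B ∧ m ≤ D A E ∧ PP A ∅ E}` (`E = A` has `D A A = 0 < m`); `CL_ac` gives the version for all `E`.
`MainII`: `Wt hv (fr A \ fr B)` from `PP A hv B` (`Cp_right`, `A ≠ B`), so `fr A \ fr B` is not empty, `m ≤ 0 ≤ p - 1`. If `m ≤ D A B` then `B` is the greatest element of `P`: `AcI_of_max`; otherwise case (ii). -/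

set_option autoImplicit false

namespace TorT
open TorA
namespace Slb
variable {X C : Type} [Lattice X] [DecidableEq C] (S : Slb X C)

/-- the common part -/
theorem MainA_common (hN : S.HN) (A B : X) (h : S.Sm A B) (m : ℤ) (hv : Set C) (n : ℕ) (hok : S.ok A B)
    (hc : S.Cn A B) (hw : Wt hv (S.fr A \ S.fr B)) (hD : S.D A B < m)
    (hmp : m ≤ ((S.fr A \ S.fr B).card : ℤ) - 1)
    (hcase : (hv = ∅ ∧ 1 ≤ m ∧ n = (S.nu A B - m + 1).toNat) ∨ (m ≤ 0 ∧ n = (S.nu A B).toNat)) :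
    Ac (Po {E | A < E ∧ E ≤ B ∧ S.PP A hv E ∧ m ≤ S.D A E}) n := by
  have cA := S.card_bot A B
  have cB := S.card_top A B
  have htop : 1 ≤ (S.fr B \ S.fr A).card := by
    unfold D at hD
    omega
  obtain ⟨AS⟩ := hN A B hv hok hc htop hw
  let _ := AS.po
  have hPB : S.PP A hv B := hc.pp hw
  have hn1 : n ≤ (S.nu A B).toNat := by
    rcases hcase with ⟨-, h1, h2⟩ | ⟨-, h2⟩
    · rw [h2]
      omega
    · rw [h2]
  have hrkB : ∀ E, E ≤ B → S.rk E ≤ S.rk B := by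
    intro E hE
    rcases hE.eq_or_lt with h1 | h1
    · rw [h1]
    · exact (S.rk_lt _ _ h1).le
  refine TA {E | A < E ∧ E ≤ B ∧ S.PP A hv E ∧ m ≤ S.D A E} AS.hu AS.sz S.rk (S.rk B)
    (fun x _ y _ hxy => S.rk_lt x y hxy) (fun x hx => hrkB x hx.2.1) AS.mono AS.sz_lt ?_ ?_ ?_
  · have h1 := AS.ac B hc.1 le_rfl hPB
    have e : {t | AS.hu t ≤ B} = (Set.univ : Set AS.T) := Set.eq_univ_of_forall fun t => AS.le t
    rw [e] at h1
    exact h1.mono hn1
  · rintro E ⟨hAE, hEB, hPE, hmE⟩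
    have hsub := S.nu_sub A E B hok hAE.le hEB
    refine ⟨(S.nu A E).toNat, (S.nu E B).toNat, by omega, AS.ac E hAE hEB hPE, ?_⟩
    have hrk := S.rk_lt A E hAE
    have h2 := (h E B hAE.le le_rfl hEB (by linarith)).2 (m - S.D A E) (S.hvs A hv)
      (S.ok_sub A B E B hok hAE.le hEB le_rfl) ((PP_iff S hok hPE hEB).1 hPB) (by linarith)
    have e : {E' | E < E' ∧ E' ≤ B ∧ S.PP E (S.hvs A hv) E' ∧ m - S.D A E ≤ S.D E E'} =
        {E' | E' ∈ {E | A < E ∧ E ≤ B ∧ S.PP A hv E ∧ m ≤ S.D A E} ∧ E < E'} := by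
      ext E'
      simp only [Set.mem_ofPred_eq]
      have hDD := D_add (S := S) A E E'
      constructor
      · rintro ⟨h3, h4, h5, h6⟩
        refine ⟨⟨hAE.trans h3, h4, ?_, by linarith⟩, h3⟩
        exact (PP_iff S (S.ok_sub A B A E' hok le_rfl (hAE.le.trans h3.le) h4) hPE h3.le).2 h5
      · rintro ⟨⟨h3, h4, h5, h6⟩, h7⟩
        refine ⟨h7, h4, ?_, by linarith⟩
        exact (PP_iff S (S.ok_sub A B A E' hok le_rfl (hAE.le.trans h7.le) h4) hPE h7.le).1 h5
    rw [← e]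
    exact h2
  · intro t
    have hAH := AS.lt t
    have hHB := AS.le t
    have hpp := AS.pp t
    have hnum := AS.num t
    have hpos := AS.sz_pos t
    have hlight := fun h0 => AS.light h0 t
    have hself := S.nu_self B
    by_cases hmH : m ≤ S.D A (AS.hu t)
    · refine ⟨AS.sz t - 1, n, by omega, AS.below t, ?_⟩
      exact (AcI_of_min (P := {E | E ∈ {E | A < E ∧ E ≤ B ∧ S.PP A hv E ∧ m ≤ S.D A E} ∧ AS.hu t ≤ E}) (AS.hu t)
        ⟨⟨hAH, hHB, hpp, hmH⟩, le_rfl⟩ (fun x hx => hx.2)) n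
    · push Not at hmH
      rcases AS.top t with hHe | ⟨hcn, hint⟩
      · refine ⟨AS.sz t - 1, 0, ?_, AS.below t, Ac_zero _⟩
        rw [hHe] at hnum hlight
        rcases hcase with ⟨h1, h2, h3⟩ | ⟨h2, h3⟩
        · have h4 := hlight (by
            intro c _
            rw [h1]
            exact Set.notMem_empty c)
          rw [h3]
          omega
        · rw [h3]
          omega
      · refine ⟨AS.sz t - 1, (S.nu (AS.hu t) B - (m - S.D A (AS.hu t)) + 1).toNat, ?_, AS.below t, ?_⟩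
        · rcases hcase with ⟨h1, h2, h3⟩ | ⟨h2, h3⟩
          · have h4 := hlight (by
              intro c _
              rw [h1]
              exact Set.notMem_empty c)
            rw [h3]
            omega
          · rw [h3]
            omega
        · have hrk := S.rk_lt A (AS.hu t) hAH
          have hokH := S.ok_sub A B (AS.hu t) B hok hAH.le hHB le_rfl
          have cH := S.card_bot (AS.hu t) B
          rw [hint] at cH
          have hDD := D_add (S := S) A (AS.hu t) B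
          have hm1 : 1 ≤ m - S.D A (AS.hu t) := by linarith
          have hm2 : m - S.D A (AS.hu t) ≤ ((S.fr (AS.hu t) \ S.fr B).card : ℤ) - 1 := by
            have : S.D A (AS.hu t) = S.w A - S.w (AS.hu t) := rfl
            linarith
          have h2 := (h (AS.hu t) B hAH.le le_rfl hHB (by linarith)).1 (m - S.D A (AS.hu t)) hokH hcn hm1 hm2
            (by linarith)
          have hwH : Wt (S.hvs A hv) (S.fr (AS.hu t) \ S.fr B) := Or.inl (by omega)
          have h3 := (CL_ac S hokH hcn hwH (m - S.D A (AS.hu t)) _).2 h2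
          have e : {E | AS.hu t ≤ E ∧ E ≤ B ∧ m - S.D A (AS.hu t) ≤ S.D (AS.hu t) E ∧
              S.PP (AS.hu t) (S.hvs A hv) E} =
              {E | E ∈ {E | A < E ∧ E ≤ B ∧ S.PP A hv E ∧ m ≤ S.D A E} ∧ AS.hu t ≤ E} := by
            ext E
            simp only [Set.mem_ofPred_eq]
            have hDE := D_add (S := S) A (AS.hu t) E
            constructor
            · rintro ⟨h4, h5, h6, h7⟩
              refine ⟨⟨hAH.trans_le h4, h5, ?_, by linarith⟩, h4⟩
              exact (PP_iff S (S.ok_sub A B A E hok le_rfl (hAH.le.trans h4) h5) hpp h4).2 h7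
            · rintro ⟨⟨h4, h5, h6, h7⟩, h8⟩
              refine ⟨h8, h5, by linarith, ?_⟩
              exact (PP_iff S (S.ok_sub A B A E hok le_rfl (hAH.le.trans h8) h5) hpp h8).1 h6
          rw [← e]
          exact h3

theorem MainI (hN : S.HN) (A B : X) (h : S.Sm A B) : S.StI A B := by
  intro m hok hc hm1 hm2 hD
  have hw : Wt (∅ : Set C) (S.fr A \ S.fr B) := Or.inl (by omega)
  refine (CL_ac S hok hc hw m _).1 ?_
  have h1 := S.MainA_common hN A B h m ∅ _ hok hc hw hD hm2 (Or.inl ⟨rfl, hm1, rfl⟩)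
  have e : {E | A < E ∧ E ≤ B ∧ S.PP A ∅ E ∧ m ≤ S.D A E} =
      {E | A ≤ E ∧ E ≤ B ∧ m ≤ S.D A E ∧ S.PP A ∅ E} := by
    ext E
    simp only [Set.mem_ofPred_eq]
    constructor
    · rintro ⟨h2, h3, h4, h5⟩
      exact ⟨h2.le, h3, h5, h4⟩
    · rintro ⟨h2, h3, h4, h5⟩
      refine ⟨lt_of_le_of_ne h2 ?_, h3, h5, h4⟩
      rintro rfl
      rw [D_self] at h4
      omega
  rw [← e]
  exact h1

theorem MainII (hN : S.HN) (A B : X) (h : S.Sm A B) (m : ℤ) (hv : Set C) (hok : S.ok A B) (hc : S.Cn A B)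
    (hP : S.PP A hv B) (hm : m ≤ 0) :
    Ac (Po {E | A < E ∧ E ≤ B ∧ S.PP A hv E ∧ m ≤ S.D A E}) (S.nu A B).toNat := by
  have hw : Wt hv (S.fr A \ S.fr B) := by
    rcases hP.2 B (Cp_right hc.1.le) with h1 | h1
    · exact absurd h1 hc.1.ne'
    · exact h1
  by_cases hD : m ≤ S.D A B
  · exact (AcI_of_max (P := {E | A < E ∧ E ≤ B ∧ S.PP A hv E ∧ m ≤ S.D A E}) B ⟨hc.1, le_rfl, hP, hD⟩
      (fun x hx => hx.2.1)) _
  · push Not at hD
    have hp : 1 ≤ (S.fr A \ S.fr B).card := Finset.card_pos.2 hw.ne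
    exact S.MainA_common hN A B h m hv _ hok hc hw hD (by omega) (Or.inr ⟨hm, rfl⟩)

end Slb
end TorT
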