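import Pool.Agent.Lib.MP_05cdf2_gt.T.DL

/-! MP_05cdf2_gt, stream T, job PT: changing the base.

Let `PP A hv E`, `A ≤ E ≤ E'`, `ok A E'`. Then `PP A hv E'` iff `PP E (hvs A hv) E'`.
(`→`) Let `Cp E E' y`, `y ≠ E`. If some `c ∈ fr E \ fr y` is not in `fr A` then it is heavy (`hvs`). Otherwise `fr E ⊆ fr A ∪ fr y`; the field `compl` for
`A ≤ E ≤ y` (`ok A y` by `ok_sub`) gives `z` with `E ⊓ z = A`, `E ⊔ z = y`, `fr E ∪ fr z = fr A ∪ fr y`, `fr E ∩ fr z = fr A ∩ fr y`. `Cp A E' z`: let `c ∈ fr z`, `c ∉ fr A`; then `c ∈ fr y`, and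
`c ∉ fr E` (else `c ∈ fr E ∩ fr z ⊆ fr A`), so `c ∈ fr E'` because `fr y ⊆ fr E ∪ fr E'`. `z ≠ A` because otherwise `y = E`. So `Wt hv (fr A \ fr z)`, and
`fr A \ fr z ⊆ fr E \ fr y`: `c ∈ fr A ∪ fr y = fr E ∪ fr z` gives `c ∈ fr E`; `c ∈ fr y` would give `c ∈ fr A ∩ fr y ⊆ fr z`. `Wt.mono`.
(`←`) Let `Cp A E' z`, `z ≠ A`. If `z ⊓ E ≠ A`: `Cp A E (z ⊓ E)` (`Cp_inf`), so `Wt hv (fr A \ fr (z ⊓ E))`, and `fr A \ fr (z ⊓ E) ⊆ fr A \ fr z` (`bot_mono`).
If `z ⊓ E = A`: `y = z ⊔ E` has `Cp E E' y` (`Cp_sup`), `y ≠ E` (else `z ≤ E`, `z = z ⊓ E = A`), so `Wt (hvs A hv) (fr E \ fr y)`. By `ind_md` for `z`, `E` in `Lam A E E'`: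
`ind c y + ind c A = ind c z + ind c E`, so `c ∈ fr E \ fr y` implies `c ∈ fr A \ fr z`. Hence `Wt hv (fr A \ fr z)` (`c ∈ fr A` and `c ∈ hvs A hv` give `c ∈ hv`).
`PP_sup`: let `F`, `F'` satisfy `PP A hv`, `U = F ⊔ F'`, `ok A U`, `Cp A U z`, `z ≠ A`. If `z ⊓ F ≠ A`: `Cp A F (z ⊓ F)`, weight, `bot_mono`. The same for `F'`. If `z ⊓ F = A` and
`z ⊓ F' = A` let `z'` be the complement of `z` in `[A,U]` (`Cp_compl`): `F = F ⊓ (z ⊔ z') = (F ⊓ z) ⊔ (F ⊓ z') = F ⊓ z'` (`dist_inf` in `Lam A F U`), so `F ≤ z'`, `F' ≤ z'`, `U ≤ z'`, `z = z ⊓ z' = A`. -/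

set_option autoImplicit false

namespace TorT
open TorA
namespace Slb
variable {X C : Type} [Lattice X] [DecidableEq C] (S : Slb X C)

theorem PP_iff {A E E' : X} {hv : Set C} (hok : S.ok A E') (hE : S.PP A hv E) (h : E ≤ E') :
    S.PP A hv E' ↔ S.PP E (S.hvs A hv) E' := by
  have hAE : A ≤ E := hE.1
  constructor
  · intro h1
    refine ⟨h, fun y hy => ?_⟩
    by_cases hne : y = E
    · exact Or.inl hne
    refine Or.inr ?_
    by_contra hw
    have hsub : S.fr E ⊆ S.fr A ∪ S.fr y := by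
      intro c hc
      rw [Finset.mem_union]
      by_contra hcon
      rw [not_or] at hcon
      exact hw (Or.inr ⟨c, Finset.mem_sdiff.mpr ⟨hc, hcon.2⟩, Or.inr hcon.1⟩)
    have hoky : S.ok A y := S.ok_sub A E' A y hok le_rfl (hAE.trans hy.1) hy.2.1
    obtain ⟨z, hz1, hz2, hz3, hz4⟩ := S.compl A E y hoky hAE hy.1 hsub
    have hAz : A ≤ z := by rw [← hz1]; exact inf_le_right
    have hzy : z ≤ y := by rw [← hz2]; exact le_sup_right
    have hCp : S.Cp A E' z := by
      refine ⟨hAz, hzy.trans hy.2.1, ?_⟩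
      intro c hc
      rw [Finset.mem_union]
      by_contra hcon
      rw [not_or] at hcon
      have h3 : c ∈ S.fr A ∪ S.fr y := by
        rw [← hz3]
        exact Finset.mem_union_right _ hc
      have h4 : c ∈ S.fr y := by
        rcases Finset.mem_union.mp h3 with h5 | h5
        · exact absurd h5 hcon.1
        · exact h5
      have h5 : c ∉ S.fr E := by
        intro h6
        have h7 : c ∈ S.fr A ∩ S.fr y := by
          rw [← hz4]
          exact Finset.mem_inter.mpr ⟨h6, hc⟩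
        exact hcon.1 (Finset.mem_inter.mp h7).1
      rcases Finset.mem_union.mp (hy.2.2 h4) with h6 | h6
      · exact h5 h6
      · exact hcon.2 h6
    have hzA : z ≠ A := by
      intro h3
      rw [h3, sup_eq_left.mpr hAE] at hz2
      exact hne hz2.symm
    rcases h1.2 z hCp with h3 | h3
    · exact hzA h3
    · refine hw (h3.mono ?_ ?_)
      · intro c hc
        rw [Finset.mem_sdiff] at hc ⊢
        have h4 : c ∈ S.fr E ∪ S.fr z := by
          rw [hz3]
          exact Finset.mem_union_left _ hc.1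
        have h5 : c ∈ S.fr E := by
          rcases Finset.mem_union.mp h4 with h6 | h6
          · exact h6
          · exact absurd h6 hc.2
        refine ⟨h5, fun h6 => hc.2 ?_⟩
        have h7 : c ∈ S.fr E ∩ S.fr z := by
          rw [hz4]
          exact Finset.mem_inter.mpr ⟨hc.1, h6⟩
        exact (Finset.mem_inter.mp h7).2
      · intro c _ h4
        exact Or.inl h4
  · intro h1
    refine ⟨hAE.trans h, fun z hz => ?_⟩
    by_cases hne : z = A
    · exact Or.inl hne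
    refine Or.inr ?_
    by_cases hze : z ⊓ E = A
    · have h3 : S.Cp E E' (z ⊔ E) := S.Cp_sup hok hAE h hz
      have h4 : z ⊔ E ≠ E := by
        intro h5
        have h6 : z ≤ E := le_sup_left.trans h5.le
        rw [inf_eq_left.mpr h6] at hze
        exact hne hze
      have h5 : Wt (S.hvs A hv) (S.fr E \ S.fr (z ⊔ E)) := (h1.2 _ h3).resolve_left h4
      have key : ∀ c, c ∈ S.fr E \ S.fr (z ⊔ E) → c ∈ S.fr A \ S.fr z := by
        intro c hc
        rw [Finset.mem_sdiff] at hc ⊢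
        have h7 := S.ind_md hok hAE h (S.Cp_mem hAE h hz) (S.mem_Lam hAE h).2.1 c
        rw [hze] at h7
        have h8 : S.ind c E = 1 := ind_eq_one.mpr hc.1
        have h9 : S.ind c (z ⊔ E) = 0 := ind_eq_zero.mpr hc.2
        have h10 := ind_nonneg (S := S) c z
        have h11 := ind_le_one (S := S) c A
        have h12 : S.ind c A = 1 := by omega
        have h13 : S.ind c z = 0 := by omega
        exact ⟨ind_eq_one.mp h12, ind_eq_zero.mp h13⟩
      refine h5.mono key ?_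
      intro c hc h6
      rcases h6 with h6 | h6
      · exact h6
      · exact absurd (Finset.mem_sdiff.mp (key c hc)).1 h6
    · have h3 := (hE.2 (z ⊓ E) (S.Cp_inf hok hAE h hz)).resolve_left hze
      exact h3.mono (bot_mono (le_inf hz.1 hAE) inf_le_left) (fun c _ hc => hc)

theorem PP_sup {A F F' : X} {hv : Set C} (hok : S.ok A (F ⊔ F')) (h : S.PP A hv F) (h' : S.PP A hv F') :
    S.PP A hv (F ⊔ F') := by
  refine ⟨h.1.trans le_sup_left, fun z hz => ?_⟩
  by_cases hne : z = A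
  · exact Or.inl hne
  refine Or.inr ?_
  have key : ∀ G, S.PP A hv G → G ≤ F ⊔ F' → z ⊓ G ≠ A → Wt hv (S.fr A \ S.fr z) := by
    intro G hG hGU hzG
    have h3 := (hG.2 (z ⊓ G) (S.Cp_inf hok hG.1 hGU hz)).resolve_left hzG
    exact h3.mono (bot_mono (le_inf hz.1 hG.1) inf_le_left) (fun c _ hc => hc)
  by_cases h1 : z ⊓ F = A
  · by_cases h2 : z ⊓ F' = A
    · exfalso
      obtain ⟨z', hz', hz1, hz2, -⟩ := S.Cp_compl hok hz
      have key2 : ∀ G, S.PP A hv G → G ≤ F ⊔ F' → z ⊓ G = A → G ≤ z' := by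
        intro G hG hGU hzG
        have h3 : G ⊓ (z ⊔ z') = (G ⊓ z) ⊔ (G ⊓ z') :=
          S.dist_inf hok hG.1 hGU (S.mem_Lam hG.1 hGU).2.1 (S.Cp_mem hG.1 hGU hz)
            (S.Cp_mem hG.1 hGU hz')
        rw [hz2, inf_eq_left.mpr hGU, inf_comm G z, hzG] at h3
        have h4 : A ≤ G ⊓ z' := le_inf hG.1 hz'.1
        rw [sup_eq_right.mpr h4] at h3
        rw [h3]
        exact inf_le_right
      have h3 : F ⊔ F' ≤ z' := sup_le (key2 F h le_sup_left h1) (key2 F' h' le_sup_right h2)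
      have h4 : z ≤ z' := hz.2.1.trans h3
      rw [inf_eq_left.mpr h4] at hz1
      exact hne hz1
    · exact key F' h' le_sup_right h2
  · exact key F h le_sup_left h1

end Slb
end TorT
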