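import Pool.Agent.Lib.MP_05cdf2_gt.T.DL

/-! MP_05cdf2_gt, stream T, job SepA: regions with one top.

Let `Cn A B`, `card (fr B \ fr A) = 1`, `A < E < B`, `w E = w B`, `ok A B`. Then `fr A ∩ fr B ⊆ fr E` (`conv`) and `card (fr E) = card (fr B) = card (fr A ∩ fr B) + 1`, so `fr E = (fr A ∩ fr B) ∪ {e}` with `e ∉ fr A ∩ fr B`.
`e ∉ fr A`: otherwise `fr E ⊆ fr A`, so `Cp A B E`, `E = A` or `E = B`. `e ∉ fr B` in the same way. Hence `fr E \ fr A = {e}`, `fr A \ fr E = fr A \ fr B`, `fr E \ fr B = {e}`, `fr E ∩ fr B = fr A ∩ fr B`.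
`Cn A E`: let `Cp A E z`. If `e ∉ fr z` then `fr z ⊆ fr A`, `Cp A B z`, so `z = A` or `z = B`; the latter contradicts `z ≤ E < B`. If `e ∈ fr z` let `z'` be the complement (`Cp_compl`): `fr z ∩ fr z' = fr A ∩ fr E` does not contain
`e`, so `e ∉ fr z'`, `z' = A`, `z = z ⊔ z' = E`.
`Cn E B`: let `Cp E B y`. If `e ∉ fr y` then `fr y ⊆ fr B`, so `Cp A B y`, `y = B` (`y ≥ E > A`). If `e ∈ fr y` the complement `y'` in `[E,B]` has `e ∉ fr y'` (`fr y ∩ fr y' = fr E ∩ fr B`), so `y' = B`, `y = y ⊓ B = y ⊓ y' = E`.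
`bot_pos`: `Cn A B`, `fr A \ fr B` empty, `H` with `Cp A B H`... : `Sep_bot`: if `Cn H B`, `fr H ∩ fr B = fr A ∩ fr B`, `A < H`, `Cn A B`, then `1 ≤ card (fr H \ fr B)`: otherwise `fr H ⊆ fr B`, `Cp A B H`, so `H = A` or
`H = B`. -/

set_option autoImplicit false

namespace TorT
open TorA
namespace Slb
variable {X C : Type} [Lattice X] [DecidableEq C] (S : Slb X C)

theorem Sep_E {A B E : X} (hok : S.ok A B) (hc : S.Cn A B) (h1 : (S.fr B \ S.fr A).card = 1)
    (hA : A < E) (hB : E < B) (hw : S.w E = S.w B) :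
    S.Cn A E ∧ S.Cn E B ∧ S.fr A \ S.fr E = S.fr A \ S.fr B ∧ (S.fr E \ S.fr A).card = 1 ∧
      (S.fr E \ S.fr B).card = 1 ∧ (S.fr B \ S.fr E).card = 1 ∧ S.fr E ∩ S.fr B = S.fr A ∩ S.fr B := by
  have hI : S.fr A ∩ S.fr B ⊆ S.fr E := by
    intro c hcc
    rw [Finset.mem_inter] at hcc
    exact S.conv A E B c hA.le hB.le hcc.1 hcc.2
  have hcard : (S.fr E).card = (S.fr B).card := by
    unfold w at hw
    exact_mod_cast hw
  have h2 : (S.fr B ∩ S.fr A).card + (S.fr B \ S.fr A).card = (S.fr B).card :=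
    Finset.card_inter_add_card_sdiff _ _
  have h3 : (S.fr E \ (S.fr A ∩ S.fr B)).card = 1 := by
    rw [Finset.card_sdiff_of_subset hI, hcard, ← h2, Finset.inter_comm, h1]
    omega
  obtain ⟨e, he⟩ := Finset.card_eq_one.1 h3
  have heE : e ∈ S.fr E ∧ e ∉ S.fr A ∩ S.fr B := by
    have : e ∈ S.fr E \ (S.fr A ∩ S.fr B) := by
      rw [he]
      exact Finset.mem_singleton_self e
    rwa [Finset.mem_sdiff] at this
  have hsub : ∀ c ∈ S.fr E, c = e ∨ (c ∈ S.fr A ∧ c ∈ S.fr B) := by
    intro c hcc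
    by_cases hcI : c ∈ S.fr A ∩ S.fr B
    · exact Or.inr (Finset.mem_inter.1 hcI)
    · left
      have : c ∈ S.fr E \ (S.fr A ∩ S.fr B) := Finset.mem_sdiff.2 ⟨hcc, hcI⟩
      rw [he] at this
      exact Finset.mem_singleton.1 this
  have hIc : ∀ c, c ∈ S.fr A → c ∈ S.fr B → c ∈ S.fr E := fun c h4 h5 =>
    hI (Finset.mem_inter.2 ⟨h4, h5⟩)
  have heA : e ∉ S.fr A := by
    intro h4
    have h5 : S.Cp A B E := by
      refine ⟨hA.le, hB.le, fun c hcc => ?_⟩
      rcases hsub c hcc with h6 | h6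
      · rw [h6]
        exact Finset.mem_union_left _ h4
      · exact Finset.mem_union_left _ h6.1
    rcases hc.2 E h5 with h6 | h6
    · exact hA.ne' h6
    · exact hB.ne h6
  have heB : e ∉ S.fr B := by
    intro h4
    have h5 : S.Cp A B E := by
      refine ⟨hA.le, hB.le, fun c hcc => ?_⟩
      rcases hsub c hcc with h6 | h6
      · rw [h6]
        exact Finset.mem_union_right _ h4
      · exact Finset.mem_union_left _ h6.1
    rcases hc.2 E h5 with h6 | h6
    · exact hA.ne' h6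
    · exact hB.ne h6
  -- components without the curve `e`
  have key1 : ∀ z, S.Cp A E z → e ∉ S.fr z → z = A := by
    intro z hz hez
    have h5 : S.Cp A B z := by
      refine ⟨hz.1, hz.2.1.trans hB.le, fun c hcc => ?_⟩
      rcases Finset.mem_union.1 (hz.2.2 hcc) with h6 | h6
      · exact Finset.mem_union_left _ h6
      · rcases hsub c h6 with h7 | h7
        · rw [h7] at hcc
          exact absurd hcc hez
        · exact Finset.mem_union_left _ h7.1
    rcases hc.2 z h5 with h6 | h6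
    · exact h6
    · rw [h6] at hz
      exact absurd (lt_of_lt_of_le hB hz.2.1) (lt_irrefl _)
  have key2 : ∀ z, S.Cp E B z → e ∉ S.fr z → z = B := by
    intro z hz hez
    have h5 : S.Cp A B z := by
      refine ⟨hA.le.trans hz.1, hz.2.1, fun c hcc => ?_⟩
      rcases Finset.mem_union.1 (hz.2.2 hcc) with h6 | h6
      · rcases hsub c h6 with h7 | h7
        · rw [h7] at hcc
          exact absurd hcc hez
        · exact Finset.mem_union_left _ h7.1
      · exact Finset.mem_union_right _ h6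
    rcases hc.2 z h5 with h6 | h6
    · rw [h6] at hz
      exact absurd (lt_of_lt_of_le hA hz.1) (lt_irrefl _)
    · exact h6
  refine ⟨⟨hA, ?_⟩, ⟨hB, ?_⟩, ?_, ?_, ?_, ?_, ?_⟩
  · intro z hz
    by_cases hez : e ∈ S.fr z
    · obtain ⟨z', hz', h4, h5, _, h7, _⟩ := S.Cp_compl (S.ok_sub A B A E hok le_rfl hA.le hB.le) hz
      have h8 : e ∉ S.fr z' := by
        intro h9
        have h10 : e ∈ S.fr z ∩ S.fr z' := Finset.mem_inter.2 ⟨hez, h9⟩
        rw [h7, Finset.mem_inter] at h10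
        exact heA h10.1
      right
      rw [key1 z' hz' h8, sup_eq_left.2 hz.1] at h5
      exact h5
    · exact Or.inl (key1 z hz hez)
  · intro z hz
    by_cases hez : e ∈ S.fr z
    · obtain ⟨z', hz', h4, h5, _, h7, _⟩ := S.Cp_compl (S.ok_sub A B E B hok hA.le hB.le le_rfl) hz
      have h8 : e ∉ S.fr z' := by
        intro h9
        have h10 : e ∈ S.fr z ∩ S.fr z' := Finset.mem_inter.2 ⟨hez, h9⟩
        rw [h7, Finset.mem_inter] at h10
        exact heB h10.2
      left
      rw [key2 z' hz' h8, inf_eq_left.2 hz.2.1] at h4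
      exact h4
    · exact Or.inr (key2 z hz hez)
  · ext c
    rw [Finset.mem_sdiff, Finset.mem_sdiff]
    constructor
    · rintro ⟨h4, h5⟩
      exact ⟨h4, fun h6 => h5 (hIc c h4 h6)⟩
    · rintro ⟨h4, h5⟩
      refine ⟨h4, fun h6 => ?_⟩
      rcases hsub c h6 with h7 | h7
      · rw [h7] at h4
        exact heA h4
      · exact h5 h7.2
  · have h4 : S.fr E \ S.fr A = {e} := by
      ext c
      rw [Finset.mem_sdiff, Finset.mem_singleton]
      constructor
      · rintro ⟨h5, h6⟩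
        rcases hsub c h5 with h7 | h7
        · exact h7
        · exact absurd h7.1 h6
      · rintro rfl
        exact ⟨heE.1, heA⟩
    rw [h4, Finset.card_singleton]
  · have h4 : S.fr E \ S.fr B = {e} := by
      ext c
      rw [Finset.mem_sdiff, Finset.mem_singleton]
      constructor
      · rintro ⟨h5, h6⟩
        rcases hsub c h5 with h7 | h7
        · exact h7
        · exact absurd h7.2 h6
      · rintro rfl
        exact ⟨heE.1, heB⟩
    rw [h4, Finset.card_singleton]
  · have h4 : S.fr B \ S.fr E = S.fr B \ S.fr A := by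
      ext c
      rw [Finset.mem_sdiff, Finset.mem_sdiff]
      constructor
      · rintro ⟨h5, h6⟩
        exact ⟨h5, fun h7 => h6 (hIc c h7 h5)⟩
      · rintro ⟨h5, h6⟩
        refine ⟨h5, fun h7 => ?_⟩
        rcases hsub c h7 with h8 | h8
        · rw [h8] at h5
          exact heB h5
        · exact h6 h8.1
    rw [h4, h1]
  · ext c
    rw [Finset.mem_inter, Finset.mem_inter]
    constructor
    · rintro ⟨h5, h6⟩
      rcases hsub c h5 with h7 | h7
      · rw [h7] at h6
        exact absurd h6 heB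
      · exact h7
    · rintro ⟨h5, h6⟩
      exact ⟨hIc c h5 h6, h6⟩

theorem Sep_bot {A B H : X} (hc : S.Cn A B) (hA : A < H) (hH : S.Cn H B)
    (hi : S.fr H ∩ S.fr B = S.fr A ∩ S.fr B) : 1 ≤ (S.fr H \ S.fr B).card := by
  by_contra h
  have h0 : (S.fr H \ S.fr B).card = 0 := by omega
  rw [Finset.card_eq_zero, Finset.sdiff_eq_empty_iff_subset] at h0
  rcases hc.2 H ⟨hA.le, hH.1.le, fun c hcc => Finset.mem_union_right _ (h0 hcc)⟩ with h1 | h1
  · exact hA.ne' h1
  · exact hH.1.ne h1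

/-- numbers of curves -/
theorem card_bot (A B : X) : (((S.fr A \ S.fr B).card : ℕ) : ℤ) = S.w A - ((S.fr A ∩ S.fr B).card : ℕ) := by
  have h := Finset.card_inter_add_card_sdiff (S.fr A) (S.fr B)
  unfold w
  omega

theorem card_top (A B : X) : (((S.fr B \ S.fr A).card : ℕ) : ℤ) = S.w B - ((S.fr A ∩ S.fr B).card : ℕ) := by
  have h := Finset.card_inter_add_card_sdiff (S.fr B) (S.fr A)
  rw [Finset.inter_comm] at h
  unfold w
  omega

end Slb
end TorT
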